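import Pool.Agent.Lib.MP_cabec5_lc.Split

/-!
Among more than `theta` vectors over an ordered field, `theta` many lie in a bounded box spanned by
finitely many of them.
-/

namespace Pool.Agent.Lib.MP_cabec5_lc

open Filter Matrix Cardinal Set

theorem exists_big_fiber {ι β : Type} {th : Cardinal} (h0 : ℵ₀ ≤ th) {A : Set ι} (hA : th < #A)
    {S : Set β} (hS : #S ≤ th) (p : ι → β → Prop) (hp : ∀ a ∈ A, ∃ s ∈ S, p a s) :
    ∃ s ∈ S, th < #{a | a ∈ A ∧ p a s} := by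
  by_contra h
  push Not at h
  have h1 : A ⊆ ⋃ s : S, {a | a ∈ A ∧ p a s} := fun a ha => by
    obtain ⟨s, hs, h2⟩ := hp a ha
    exact mem_iUnion.2 ⟨⟨s, hs⟩, ha, h2⟩
  refine absurd ((mk_le_mk_of_subset h1).trans ((mk_iUnion_le _).trans
    (mul_le_of_le h0 hS (ciSup_le' fun s => h s s.2)))) (not_le.2 hA)

theorem exists_big_fiber_finite {ι β : Type} {th : Cardinal} (h0 : ℵ₀ ≤ th) {S : Set β}
    (hS : S.Finite) (p : ι → β → Prop) : ∀ A : Set ι, th ≤ #A → (∀ a ∈ A, ∃ s ∈ S, p a s) →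
    ∃ s, th ≤ #{a | a ∈ A ∧ p a s} := by
  induction S, hS using Set.Finite.induction_on with
  | empty =>
    intro A hA hp
    obtain ⟨a, ha⟩ := nonempty_coe_sort.1 (mk_ne_zero_iff.1 ((aleph0_pos.trans_le (h0.trans hA)).ne'))
    simpa using hp a ha
  | @insert s S _ _ ih =>
    intro A hA hp
    by_cases h : th ≤ #{a | a ∈ A ∧ p a s}
    · exact ⟨s, h⟩
    have h1 : th ≤ #{a | a ∈ A ∧ ¬ p a s} := by
      by_contra h2
      have : A ⊆ {a | a ∈ A ∧ p a s} ∪ {a | a ∈ A ∧ ¬ p a s} := fun a ha =>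
        (em (p a s)).imp (fun h => ⟨ha, h⟩) fun h => ⟨ha, h⟩
      exact absurd (hA.trans ((mk_le_mk_of_subset this).trans (mk_union_le _ _)))
        (not_le.2 (add_lt_of_lt h0 (not_le.1 h) (not_le.1 h2)))
    obtain ⟨s', hs'⟩ := ih _ h1 fun a ha => by
      obtain ⟨s', hs', h3⟩ := hp a ha.1
      rcases hs' with rfl | hs'
      · exact absurd h3 ha.2
      · exact ⟨s', hs', h3⟩
    exact ⟨s', hs'.trans (mk_le_mk_of_subset fun a ha => ⟨ha.1.1, ha.2⟩)⟩

variable {K : Type} [Field K] [LinearOrder K] [IsStrictOrderedRing K] {ι : Type}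

/-- combinations of the vectors indexed by `T` with coefficients bounded by `n` -/
def Box (K : Type) [Field K] [LinearOrder K] {ι E : Type} [AddCommGroup E] [Module K E]
    (a : ι → E) (T : Finset ι) (n : ℕ) : Set E :=
  {x | ∃ o : ι → K, (∀ i, |o i| ≤ n) ∧ x = ∑ i ∈ T, o i • a i}

section
variable {E : Type} [AddCommGroup E] [Module K E] {a : ι → E}

theorem Box.add [DecidableEq ι] {T T' : Finset ι} {n n' : ℕ} {x y : E} (hx : x ∈ Box K a T n)
    (hy : y ∈ Box K a T' n') : x + y ∈ Box K a (T ∪ T') (n + n') := by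
  obtain ⟨o, ho, rfl⟩ := hx
  obtain ⟨o', ho', rfl⟩ := hy
  refine ⟨fun i => (if i ∈ T then o i else 0) + (if i ∈ T' then o' i else 0), fun i => ?_, ?_⟩
  · push_cast
    refine (abs_add_le _ _).trans (add_le_add ?_ ?_) <;> split_ifs <;> simp [*]
  · simp only [add_smul, Finset.sum_add_distrib, ite_smul, zero_smul, Finset.sum_ite_mem,
      Finset.union_inter_cancel_left, Finset.union_inter_cancel_right]

theorem Box.smul {T : Finset ι} {n : ℕ} {x : E} (hx : x ∈ Box K a T n) {c : K} (hc : |c| ≤ 1) :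
    c • x ∈ Box K a T n := by
  obtain ⟨o, ho, rfl⟩ := hx
  refine ⟨fun i => c * o i, fun i => ?_, by simp [Finset.smul_sum, mul_smul]⟩
  rw [abs_mul]
  exact (mul_le_of_le_one_left (abs_nonneg _) hc).trans (ho i)

theorem Box.self (i : ι) : a i ∈ Box K a {i} 1 := ⟨fun _ => 1, by simp, by simp⟩

end

theorem exists_box {th : Cardinal} (h0 : ℵ₀ ≤ th) (d : ℕ) : ∀ A : Set ι, th < #A →
    ∀ a : ι → Fin d → K, ∃ (T : Finset ι) (n : ℕ) (B : Set ι), ↑T ⊆ A ∧ B ⊆ A ∧ th ≤ #B ∧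
      ∀ x ∈ B, a x ∈ Box K a T n := by
  classical
  induction d with
  | zero =>
    intro A hA a
    exact ⟨∅, 0, A, by simp, subset_rfl, hA.le, fun x _ => ⟨0, by simp, Subsingleton.elim _ _⟩⟩
  | succ d ih =>
  intro A hA a
  let a' : ι → (Fin d → K) × K := fun x => (Fin.tail (a x), a x 0)
  let L : Set ((Fin d → K) × K) := {q | ∃ (T : Finset ι) (n : ℕ), ↑T ⊆ A ∧ q ∈ Box K a' T n}
  have hL : SymAdd (K := K) L := by
    constructor
    · rintro p ⟨T, n, hT, hp⟩ q ⟨T', n', hT', hq⟩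
      exact ⟨T ∪ T', _, by simp [hT, hT'], Box.add hp hq⟩
    · rintro p ⟨T, n, hT, hp⟩ c hc
      exact ⟨T, n, hT, Box.smul hp hc⟩
  have haL : ∀ x ∈ A, a' x ∈ L := fun x hx => ⟨{x}, 1, by simpa using hx, Box.self x⟩
  have hdec : ∀ (T : Finset ι) (o : ι → K) (x : ι),
      Fin.tail (a x) = ∑ i ∈ T, o i • Fin.tail (a i) →
      a' x = ∑ i ∈ T, o i • a' i + (0, a x 0 - ∑ i ∈ T, o i * a i 0) := fun T o x h => by
    refine Prod.ext ?_ ?_
    · simp only [a', Prod.fst_add, Prod.fst_sum, Prod.smul_fst, add_zero]; exact h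
    · simp [a', Prod.snd_sum]
  have key : ∃ (T : Finset ι) (n : ℕ) (B : Set ι) (u : K), ↑T ⊆ A ∧ B ⊆ A ∧ th ≤ #B ∧
      ((0 : Fin d → K), u) ∈ L ∧ ∀ x ∈ B, ∃ o : ι → K, (∀ i, |o i| ≤ n) ∧
        Fin.tail (a x) = ∑ i ∈ T, o i • Fin.tail (a i) ∧
        |a x 0 - ∑ i ∈ T, o i * a i 0| ≤ u := by
    by_cases hc : ∀ S : Set K, #S ≤ th → (∀ s ∈ S, ((0 : Fin d → K), s) ∈ L) →
        ∃ u, ((0 : Fin d → K), u) ∈ L ∧ ∀ s ∈ S, |s| ≤ u
    · obtain ⟨T, n, B, hT, hB, hth, h⟩ := ih A hA fun x => Fin.tail (a x)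
      obtain ⟨B', hB', hc'⟩ := le_mk_iff_exists_subset.1 hth
      choose! o ho h using h
      obtain ⟨u, hu, h1⟩ := hc ((fun x => a x 0 - ∑ i ∈ T, o x i * a i 0) '' B')
        (mk_image_le.trans hc'.le) (by
          rintro _ ⟨x, hx, rfl⟩
          have := hL.add _ (haL x (hB (hB' hx))) _
            (hL.smul _ ⟨T, n, hT, o x, ho x (hB' hx), rfl⟩ (-1) (by simp))
          rw [hdec T (o x) x (h x (hB' hx))] at this
          simpa using this)
      exact ⟨T, n, B', u, hT, hB'.trans hB, hc'.ge, hu, fun x hx =>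
        ⟨o x, ho x (hB' hx), h x (hB' hx), h1 _ ⟨x, hx, rfl⟩⟩⟩
    · push Not at hc
      obtain ⟨S, hS, hSL, hc⟩ := hc
      obtain ⟨G, hG, hG'⟩ := exists_split d L hL
      obtain ⟨s, hs, hA'⟩ := exists_big_fiber h0 hA hS
        (fun x s => ∀ᶠ t in G, |a x 0 - t ⬝ᵥ Fin.tail (a x)| ≤ |s|) fun x hx => by
          obtain ⟨u, hu, h1⟩ := hG' _ (haL x hx)
          obtain ⟨s, hs, h2⟩ := hc u hu
          exact ⟨s, hs, h1.mono fun t ht => ht.trans h2.le⟩
      obtain ⟨T, n, B, hT, hB, hth, h⟩ := ih _ hA' fun x => Fin.tail (a x)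
      have hm : ∀ m : ℕ, ((0 : Fin d → K), (m + 1) * |s|) ∈ L := fun m => by
        induction m with
        | zero => simpa using hL.abs_mem (hSL s hs)
        | succ m ihm =>
          have := hL.add _ ihm _ (hL.abs_mem (hSL s hs))
          simpa [add_mul] using this
      refine ⟨T, n, B, _, fun x hx => (hT hx).1, fun x hx => (hB hx).1, hth, hm (T.card * n),
        fun x hx => ?_⟩
      obtain ⟨o, ho, h1⟩ := h x hx
      refine ⟨o, ho, h1, ?_⟩
      obtain ⟨t, h2, h3⟩ := ((hB hx).2.and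
        ((eventually_all_finset T).2 fun i hi => (hT hi).2)).exists
      have e : a x 0 - ∑ i ∈ T, o i * a i 0 = (a x 0 - t ⬝ᵥ Fin.tail (a x)) -
          ∑ i ∈ T, o i * (a i 0 - t ⬝ᵥ Fin.tail (a i)) := by
        rw [h1, dotProduct_sum]
        simp only [dotProduct_smul, smul_eq_mul, mul_sub, Finset.sum_sub_distrib]
        ring
      rw [e]
      refine (abs_sub _ _).trans ?_
      have h4 : |∑ i ∈ T, o i * (a i 0 - t ⬝ᵥ Fin.tail (a i))| ≤ T.card • ((n : K) * |s|) := by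
        refine (Finset.abs_sum_le_sum_abs _ _).trans (Finset.sum_le_card_nsmul _ _ _ fun i hi => ?_)
        rw [abs_mul]
        exact mul_le_mul (ho i) (h3 i hi) (abs_nonneg _) (Nat.cast_nonneg _)
      rw [nsmul_eq_mul] at h4
      push_cast
      linarith
  obtain ⟨T, n, B, u, hT, hB, hth, ⟨T', n', hT', hu⟩, h⟩ := key
  refine ⟨T ∪ T', n + n', B, by simp [hT, hT'], hB, hth, fun x hx => ?_⟩
  obtain ⟨o, ho, h1, h2⟩ := h x hx
  have h3 : ((0 : Fin d → K), a x 0 - ∑ i ∈ T, o i * a i 0) ∈ Box K a' T' n' := by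
    have hu0 : 0 ≤ u := (abs_nonneg _).trans h2
    have := Box.smul hu (c := (a x 0 - ∑ i ∈ T, o i * a i 0) / u) (by
      rw [abs_div, abs_of_nonneg hu0]; exact div_le_one_of_le₀ h2 hu0)
    rcases hu0.eq_or_lt with e | e
    · rw [← e] at h2
      rw [abs_nonpos_iff.1 h2] at this ⊢
      rw [zero_div, zero_smul] at this
      exact this
    · simpa [e.ne'] using this
  obtain ⟨o', ho', h4⟩ := Box.add (⟨o, ho, rfl⟩ : _ ∈ Box K a' T n) h3
  rw [← hdec T o x h1] at h4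
  refine ⟨o', ho', funext fun i => ?_⟩
  refine Fin.cases ?_ (fun i => ?_) i
  · simpa [a', Prod.snd_sum] using congrArg Prod.snd h4
  · simpa [a', Prod.fst_sum, Fin.tail] using congrFun (congrArg Prod.fst h4) i

end Pool.Agent.Lib.MP_cabec5_lc
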