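import Mathlib

/-!
Colouring number through chains of sets closed under a finitary set mapping.
-/

namespace Pool.Agent.Lib.MP_cabec5_lc

open Cardinal Set

variable {U : Type}

/-- `X` is closed under the finitary set mapping `F` -/
def Closed (F : List U → Set U) (X : Set U) : Prop :=
  ∀ l : List U, (∀ x ∈ l, x ∈ X) → F l ⊆ X

def step (F : List U → Set U) (X : Set U) : Set U :=
  X ∪ ⋃ l : List X, F (l.map Subtype.val)

def cl (F : List U → Set U) (X : Set U) : Set U := ⋃ n : ℕ, (step F)^[n] X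

theorem subset_step (F : List U → Set U) (X : Set U) : X ⊆ step F X := subset_union_left

theorem F_subset_step {F : List U → Set U} {X : Set U} {l : List U} (h : ∀ x ∈ l, x ∈ X) :
    F l ⊆ step F X := by
  intro y hy
  refine Or.inr (mem_iUnion.2 ⟨l.attachWith (· ∈ X) h, ?_⟩)
  simpa using hy

theorem step_subset {F : List U → Set U} {X Y : Set U} (hY : Closed F Y) (h : X ⊆ Y) :
    step F X ⊆ Y := by
  refine union_subset h (iUnion_subset fun l => hY _ fun x hx => ?_)
  obtain ⟨y, -, rfl⟩ := List.mem_map.1 hx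
  exact h y.2

theorem subset_cl (F : List U → Set U) (X : Set U) : X ⊆ cl F X :=
  subset_iUnion (fun n => (step F)^[n] X) 0

theorem cl_subset {F : List U → Set U} {X Y : Set U} (hY : Closed F Y) (h : X ⊆ Y) :
    cl F X ⊆ Y := by
  refine iUnion_subset fun n => ?_
  induction n with
  | zero => exact h
  | succ n ih => rw [Function.iterate_succ_apply']; exact step_subset hY ih

theorem list_in_chain {ι : Type*} [LinearOrder ι] {Y : ι → Set U} (hY : Monotone Y)
    {S : Set ι} (hS : S.Nonempty) (l : List U) (h : ∀ x ∈ l, ∃ i ∈ S, x ∈ Y i) :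
    ∃ i ∈ S, ∀ x ∈ l, x ∈ Y i := by
  induction l with
  | nil => obtain ⟨i, hi⟩ := hS; exact ⟨i, hi, by simp⟩
  | cons a l ih =>
    obtain ⟨i, hi, h1⟩ := ih fun x hx => h x (List.mem_cons_of_mem _ hx)
    obtain ⟨j, hj, h2⟩ := h a List.mem_cons_self
    refine ⟨max i j, ?_, fun x hx => ?_⟩
    · rcases max_choice i j with e | e <;> rw [e] <;> assumption
    · rcases List.mem_cons.1 hx with rfl | hx
      · exact hY (le_max_right _ _) h2
      · exact hY (le_max_left _ _) (h1 x hx)

theorem closed_cl (F : List U → Set U) (X : Set U) : Closed F (cl F X) := by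
  intro l hl
  have hm : Monotone fun n => (step F)^[n] X := monotone_nat_of_le_succ fun n => by
    rw [Function.iterate_succ_apply']; exact subset_step F _
  obtain ⟨n, -, hn⟩ := list_in_chain hm (S := univ) univ_nonempty l fun x hx => by
    obtain ⟨n, hn⟩ := mem_iUnion.1 (hl x hx); exact ⟨n, trivial, hn⟩
  refine (F_subset_step hn).trans ?_
  rw [← Function.iterate_succ_apply' (step F)]
  exact subset_iUnion (fun n => (step F)^[n] X) (n + 1)

theorem card_step {F : List U → Set U} {mu : Cardinal} (h0 : ℵ₀ ≤ mu) (hF : ∀ l, #(F l) ≤ mu)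
    {X : Set U} (hX : #X ≤ mu) : #(step F X) ≤ mu := by
  refine (mk_union_le _ _).trans (add_le_of_le h0 hX ?_)
  refine (mk_iUnion_le _).trans (mul_le_of_le h0 ?_ (ciSup_le' fun l => hF _))
  exact (mk_list_le_max _).trans (max_le h0 hX)

theorem card_cl {F : List U → Set U} {mu : Cardinal} (h0 : ℵ₀ ≤ mu) (hF : ∀ l, #(F l) ≤ mu)
    {X : Set U} (hX : #X ≤ mu) : #(cl F X) ≤ mu := by
  have h : ∀ n, #((step F)^[n] X) ≤ mu := fun n => by
    induction n with
    | zero => exact hX
    | succ n ih => rw [Function.iterate_succ_apply']; exact card_step h0 hF ih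
  refine (mk_iUnion_le _).trans (mul_le_of_le h0 ?_ (ciSup_le' h))
  simpa using h0

theorem exists_lex (rho : U → Ordinal.{0}) (r : Ordinal.{0} → U → U → Prop)
    (hr : ∀ a, IsWellOrder U (r a)) : ∃ s : U → U → Prop, IsWellOrder U s ∧
      ∀ u v, s u v → rho u < rho v ∨ (rho u = rho v ∧ r (rho v) u v) := by
  let t : Ordinal.{0} → U → Ordinal.{0} := fun a u => @Ordinal.typein U (r a) (hr a) u
  have ht : ∀ a u v, t a u < t a v ↔ r a u v := fun a u v =>
    @Ordinal.typein_lt_typein U (r a) (hr a) u v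
  have hi : ∀ a, Function.Injective (t a) := fun a => @Ordinal.typein_injective U (r a) (hr a)
  let g : U → Ordinal.{0} ×ₗ Ordinal.{0} := fun u => toLex (rho u, t (rho u) u)
  have hg : Function.Injective g := fun u v h => by
    have h' : (rho u, t (rho u) u) = (rho v, t (rho v) v) := toLex.injective h
    obtain ⟨h1, h2⟩ := Prod.mk.inj h'
    rw [h1] at h2
    exact hi _ h2
  refine ⟨_, (RelEmbedding.preimage ⟨g, hg⟩ (· < ·)).isWellOrder, fun u v h => ?_⟩
  have h' : g u < g v := h
  rcases Prod.Lex.toLex_lt_toLex.1 h' with h1 | ⟨h1, h2⟩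
  · exact Or.inl h1
  · refine Or.inr ⟨h1, ?_⟩
    have h1' : rho u = rho v := h1
    have h2' : t (rho u) u < t (rho v) v := h2
    rw [h1'] at h2'
    exact (ht _ _ _).1 h2'

theorem exists_enum (X : Set U) : ∃ e : U → Ordinal.{0}, (∀ u ∈ X, e u < (#X).ord) ∧
    ∀ a : Ordinal.{0}, #{u | u ∈ X ∧ e u < a} ≤ a.card := by
  classical
  obtain ⟨r, hr, ht⟩ := Cardinal.exists_ord_eq X
  refine ⟨fun u => if h : u ∈ X then Ordinal.typein r ⟨u, h⟩ else 0, fun u hu => ?_, fun a => ?_⟩
  · simp only [dif_pos hu]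
    rw [ht]; exact Ordinal.typein_lt_type r _
  · have : lift.{1} #{u | u ∈ X ∧ (if h : u ∈ X then Ordinal.typein r ⟨u, h⟩ else 0) < a} ≤
        lift.{0} #(Iio a) := by
      refine lift_mk_le_lift_mk_of_injective (f := fun u => ⟨_, u.2.2⟩) ?_
      rintro ⟨u, hu, hu'⟩ ⟨v, hv, hv'⟩ h
      have h' := congrArg Subtype.val h
      simp only [dif_pos hu, dif_pos hv] at h'
      have := Ordinal.typein_injective r h'
      simpa using this
    rw [Cardinal.mk_Iio_ordinal, lift_lift] at this
    exact lift_le.1 this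

/-- a well ordering in which each point of `X` has few earlier neighbours in `X` -/
def Good (R : U → U → Prop) (lam : Cardinal) (X : Set U) : Prop :=
  ∃ r : U → U → Prop, IsWellOrder U r ∧ ∀ v ∈ X, #{u | r u v ∧ u ∈ X ∧ R u v} < lam

theorem good_of_closed {F : List U → Set U} {R : U → U → Prop} {lam : Cardinal} (h0 : ℵ₀ ≤ lam)
    (hF : ∀ l, #(F l) ≤ lam)
    (hR : ∀ X, Closed F X → ∀ v, v ∉ X → #{u | u ∈ X ∧ R u v} < lam) (k : Cardinal) :
    ∀ X : Set U, Closed F X → #X = k → Good R lam X := by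
  induction k using WellFoundedLT.induction with
  | ind k ih =>
  intro X hX hk
  obtain ⟨e, he, hc⟩ := exists_enum X
  rcases le_or_gt k lam with hle | hlt
  · obtain ⟨s, hs, h⟩ := exists_lex e (fun _ => WellOrderingRel) fun _ => inferInstance
    refine ⟨s, hs, fun v hv => ?_⟩
    have h1 : {u | s u v ∧ u ∈ X ∧ R u v} ⊆ {u | u ∈ X ∧ e u < e v + 1} := fun u hu =>
      ⟨hu.2.1, by
        rcases h u v hu.1 with h | h
        · exact h.trans (lt_add_one _)
        · rw [h.1]; exact lt_add_one _⟩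
    refine ((mk_le_mk_of_subset h1).trans (hc _)).trans_lt ?_
    rw [Ordinal.card_add_one]
    refine add_lt_of_lt h0 ?_ (one_lt_aleph0.trans_le h0)
    exact (lt_ord.1 (he v hv)).trans_le (hk ▸ hle)
  · let Y : Ordinal.{0} → Set U := fun a => cl F {u | u ∈ X ∧ e u < a}
    have hYm : Monotone Y := fun a b hab =>
      cl_subset (closed_cl _ _) fun u hu => subset_cl F _ ⟨hu.1, hu.2.trans_le hab⟩
    have hg : ∀ a, ∃ r : U → U → Prop, IsWellOrder U r ∧
        (a < k.ord → ∀ v ∈ Y a, #{u | r u v ∧ u ∈ Y a ∧ R u v} < lam) := fun a => by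
      by_cases ha : a < k.ord
      · have h1 : #(Y a) ≤ max a.card lam :=
          card_cl (h0.trans (le_max_right _ _)) (fun l => (hF l).trans (le_max_right _ _))
            ((hc a).trans (le_max_left _ _))
        obtain ⟨r, hr, h⟩ := ih _ (h1.trans_lt (max_lt (lt_ord.1 ha) hlt)) (Y a)
          (closed_cl _ _) rfl
        exact ⟨r, hr, fun _ => h⟩
      · exact ⟨WellOrderingRel, inferInstance, fun h => absurd h ha⟩
    choose r hr hg using hg
    let rho : U → Ordinal.{0} := fun u => sInf {a | u ∈ Y a}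
    have hmem : ∀ u ∈ X, u ∈ Y (e u + 1) := fun u hu => subset_cl F _ ⟨hu, lt_add_one _⟩
    have hrho : ∀ u ∈ X, u ∈ Y (rho u) := fun u hu =>
      csInf_mem (s := {a | u ∈ Y a}) ⟨_, hmem u hu⟩
    have hle : ∀ u a, u ∈ Y a → rho u ≤ a := fun u a h => csInf_le' h
    obtain ⟨s, hs, h⟩ := exists_lex rho r hr
    refine ⟨s, hs, fun v hv => ?_⟩
    have hv' : rho v < k.ord := by
      refine (hle v _ (hmem v hv)).trans_lt ?_
      exact (isSuccLimit_ord (h0.trans hlt.le)).succ_lt (hk ▸ he v hv)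
    have h1 : {u | s u v ∧ u ∈ X ∧ R u v} ⊆ {u | u ∈ ⋃ a ∈ Iio (rho v), Y a ∧ R u v} ∪
        {u | r (rho v) u v ∧ u ∈ Y (rho v) ∧ R u v} := fun u hu => by
      rcases h u v hu.1 with h | h
      · exact Or.inl ⟨mem_biUnion h (hrho u hu.2.1), hu.2.2⟩
      · exact Or.inr ⟨h.2, h.1 ▸ hrho u hu.2.1, hu.2.2⟩
    refine ((mk_le_mk_of_subset h1).trans (mk_union_le _ _)).trans_lt
      (add_lt_of_lt h0 ?_ (hg _ hv' v (hrho v hv)))
    rcases (Iio (rho v)).eq_empty_or_nonempty with hem | hne
    · rw [hem]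
      simpa using aleph0_pos.trans_le h0
    · refine hR _ (fun l hl => ?_) v fun hv2 => ?_
      · obtain ⟨a, ha, h2⟩ := list_in_chain hYm hne l fun x hx => by
          simpa using hl x hx
        exact (closed_cl F _ l h2).trans (subset_biUnion_of_mem (u := Y) ha)
      · obtain ⟨a, ha, h2⟩ := mem_iUnion₂.1 hv2
        exact absurd (hle v a h2) (not_le.2 ha)

theorem col_le_of_closed {F : List U → Set U} {R : U → U → Prop} {lam : Cardinal}
    (h0 : ℵ₀ ≤ lam) (hF : ∀ l, #(F l) ≤ lam)
    (hR : ∀ X, Closed F X → ∀ v, v ∉ X → #{u | u ∈ X ∧ R u v} < lam) :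
    ∃ r : U → U → Prop, IsWellOrder U r ∧ ∀ v, #{u // r u v ∧ R u v} < lam := by
  obtain ⟨r, hr, h⟩ := good_of_closed h0 hF hR _ univ (fun _ _ => subset_univ _) rfl
  refine ⟨r, hr, fun v => ?_⟩
  have := h v trivial
  simp only [mem_univ, true_and] at this
  exact this

end Pool.Agent.Lib.MP_cabec5_lc
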