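import Mathlib

/-!
A free set lemma on sets of size above `θ` for set mappings along a nested family.
-/

namespace Pool.Agent.Lib.MP_cabec5_lc

open Cardinal Set

variable {X : Type} {θ : Cardinal.{0}}

theorem small_biUnion {ι : Type} (h0 : ℵ₀ ≤ θ) {s : Set ι} (hs : s.Finite) {f : ι → Set X}
    (hf : ∀ i ∈ s, #(f i) < θ) : #(⋃ i ∈ s, f i) < θ := by
  induction s, hs using Set.Finite.induction_on with
  | empty => simpa using aleph0_pos.trans_le h0
  | insert _ _ ih =>
    rw [biUnion_insert]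
    exact (mk_union_le _ _).trans_lt (add_lt_of_lt h0 (hf _ (mem_insert _ _))
      (ih fun i hi => hf i (mem_insert_of_mem _ hi)))

theorem le_biUnion {ι : Type} (h0 : ℵ₀ ≤ θ) {s : Set ι} (hs : #s ≤ θ) {f : ι → Set X}
    (hf : ∀ i ∈ s, #(f i) ≤ θ) : #(⋃ i ∈ s, f i) ≤ θ :=
  (mk_biUnion_le _ _).trans (mul_le_of_le h0 hs (ciSup_le' fun i => hf i.1 i.2))

theorem exists_not_mem {s t : Set X} (h : #t < #s) : ∃ x ∈ s, x ∉ t :=
  not_subset.1 fun hs => absurd (mk_le_mk_of_subset hs) (not_le.2 h)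

theorem exists_root (h0 : ℵ₀ ≤ θ) (Y : Set X) (T : X → Set X) : ∃ R : Set X, #R < θ ∧
    (θ < #Y → (∀ y, #(T y) < θ) → ∀ F : Set X, F.Finite → Disjoint F R →
      θ < #{y | y ∈ Y ∧ Disjoint (T y) F}) := by
  by_cases hh : θ < #Y ∧ ∀ y, #(T y) < θ
  swap
  · exact ⟨∅, by simpa using aleph0_pos.trans_le h0, fun h1 h2 => absurd ⟨h1, h2⟩ hh⟩
  obtain ⟨hY, hT⟩ := hh
  obtain ⟨M, hM⟩ := zorn_subset {M : Set (Set X) | (∀ F ∈ M, F.Finite ∧
      #{y | y ∈ Y ∧ Disjoint (T y) F} ≤ θ) ∧ M.PairwiseDisjoint id} fun c hc hch =>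
    ⟨⋃₀ c, ⟨fun F ⟨_, hm, hF⟩ => (hc hm).1 F hF,
      (pairwiseDisjoint_sUnion hch.directedOn).2 fun m hm => (hc hm).2⟩,
      fun s hs => subset_sUnion_of_mem hs⟩
  obtain ⟨h1, h2⟩ := hM.prop
  have h3 : #M < θ := by
    by_contra h
    obtain ⟨L, hL, hc⟩ := le_mk_iff_exists_subset.1 (not_lt.1 h)
    obtain ⟨y, hy, h4⟩ := exists_not_mem
      ((le_biUnion h0 hc.le fun F hF => (h1 F (hL hF)).2).trans_lt hY)
    have h5 : ∀ F : L, ∃ x : T y, x.1 ∈ F.1 := fun F => by
      obtain ⟨x, hx, hx'⟩ := not_disjoint_iff.1 fun hd => h4 (mem_biUnion F.2 ⟨hy, hd⟩)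
      exact ⟨⟨x, hx⟩, hx'⟩
    choose f hf using h5
    have h6 : Function.Injective f := fun F F' e => Subtype.ext <|
      h2.elim_set (hL F.2) (hL F'.2) (f F).1 (hf F) (e ▸ hf F')
    exact absurd (hc ▸ mk_le_of_injective h6) (not_le.2 (hT y))
  refine ⟨⋃ F ∈ M, F, ?_, fun _ _ F hF hd => ?_⟩
  · rcases h0.eq_or_lt with e | e
    · exact small_biUnion h0 (lt_aleph0_iff_set_finite.1 (e ▸ h3)) fun F hF =>
        (lt_aleph0_iff_set_finite.2 (h1 F hF).1).trans_le h0
    · exact (le_biUnion (le_max_right #M ℵ₀) (le_max_left _ _) fun F hF =>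
        (lt_aleph0_iff_set_finite.2 (h1 F hF).1).le.trans (le_max_right _ _)).trans_lt
        (max_lt h3 e)
  · by_contra h
    have h4 : F ∈ M := hM.mem_of_prop_insert ⟨fun F' hF' => hF'.elim
      (fun e => e ▸ ⟨hF, not_lt.1 h⟩) (h1 F'), h2.insert fun F' hF' _ =>
        hd.mono_right (subset_biUnion_of_mem (u := fun F => F) hF')⟩
    have h5 : F = ∅ := disjoint_self.1 (hd.mono_right (subset_biUnion_of_mem (u := fun F => F) h4))
    subst h5
    simp [hY] at h

theorem exists_free (h0 : ℵ₀ ≤ θ) (hX : θ < #X) (m : ℕ) (E : ℕ → ℕ → Prop) (n : ℕ)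
    (hE : ∀ k < n, ∀ j j', j ≤ j' → j' < m → E k j → E k j' → ∀ p < k, E p j → E p j')
    (S : ℕ → (ℕ → X) → Set X) (hS : ∀ j φ, #(S j φ) < θ)
    (hD : ∀ j < m, ∀ φ ψ, (∀ p < n, E p j → φ p = ψ p) → S j φ = S j ψ) :
    ∃ φ : ℕ → X, ∀ j < m, ∀ p < n, ¬ E p j → φ p ∉ S j φ := by
  classical
  induction n generalizing S with
  | zero =>
    have : Nonempty X := mk_ne_zero_iff.1 (pos_of_gt hX).ne'
    exact ⟨fun _ => Classical.arbitrary X, fun _ _ _ h => absurd h (Nat.not_lt_zero _)⟩
  | succ n ih =>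
    choose R hR hR' using fun (Y : Set X) (T : X → Set X) => exists_root h0 Y T
    let T : ℕ → (ℕ → X) → X → Set X := fun j φ y =>
      ⋃ j' ∈ {j' | j' ≤ j ∧ E n j'}, S j' (Function.update φ n y)
    let Y : ℕ → (ℕ → X) → Set X := fun j φ =>
      {y | ∀ j' ≤ j, E n j' → ∀ p < n, E p j → ¬ E p j' → φ p ∉ S j' (Function.update φ n y)}
    have hu : ∀ (φ : ℕ → X) y, ∀ p < n, Function.update φ n y p = φ p := fun φ y p hp =>
      Function.update_of_ne hp.ne _ _
    obtain ⟨φ, hφ⟩ := ih (fun k hk => hE k (hk.trans (Nat.lt_succ_self n)))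
      (fun j φ => if E n j then R (Y j φ) (T j φ) else S j φ)
      (fun j φ => by split_ifs; exacts [hR _ _, hS _ _]) fun j hj φ ψ h => by
        split_ifs with hn
        · have h1 : ∀ y, ∀ j' ≤ j, E n j' →
              S j' (Function.update φ n y) = S j' (Function.update ψ n y) := fun y j' hj' hn' =>
            hD j' (hj'.trans_lt hj) _ _ fun p hp hp' => by
              rcases (Nat.lt_succ_iff.1 hp).eq_or_lt with rfl | hp
              · simp
              · rw [hu _ _ _ hp, hu _ _ _ hp]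
                exact h p hp (hE n (Nat.lt_succ_self n) j' j hj' hj hn' hn p hp hp')
          congr 1
          · ext y
            refine forall₃_congr fun j' hj' hn' => forall₃_congr fun p hp hp' => ?_
            rw [h1 y j' hj' hn', h p hp hp']
          · funext y
            exact iUnion₂_congr fun j' hj' => h1 y j' hj'.1 hj'.2
        · refine hD j hj _ _ fun p hp hp' => ?_
          rcases (Nat.lt_succ_iff.1 hp).eq_or_lt with rfl | hp
          · exact absurd hp' hn
          · exact h p hp hp'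
    have hZ : ∀ m' ≤ m, θ < #{y | ∀ j < m', E n j → ∀ p < n, ¬ E p j →
        φ p ∉ S j (Function.update φ n y)} := by
      intro m' hm
      induction m' with
      | zero => simpa using hX
      | succ j ihj =>
        have h1 := ihj (Nat.le_of_succ_le hm)
        by_cases hn : E n j
        · have h2 : θ < #(Y j φ) := h1.trans_le (mk_le_mk_of_subset
            fun y hy j' hj' hn' p hp hp' hp'' => by
              rcases hj'.eq_or_lt with rfl | hj'
              · exact absurd hp' hp''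
              · exact hy j' hj' hn' p hp hp'')
          have h3 := hR' (Y j φ) (T j φ) h2 (fun y => small_biUnion h0
            ((finite_le_nat j).subset fun _ h => h.1) fun _ _ => hS _ _)
            (φ '' {p | p < n ∧ ¬ E p j}) (((finite_lt_nat n).subset fun _ h => h.1).image _)
            (disjoint_left.2 (by
              rintro _ ⟨p, hp, rfl⟩
              simpa [hn] using hφ j hm p hp.1 hp.2))
          refine h3.trans_le (mk_le_mk_of_subset fun y hy j' hj' hn' p hp hp' => ?_)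
          by_cases hpj : E p j
          · exact hy.1 j' (Nat.lt_succ_iff.1 hj') hn' p hp hpj hp'
          · exact fun h => disjoint_left.1 hy.2
              (mem_biUnion (t := fun j' => S j' (Function.update φ n y))
                (show j' ∈ {j' | j' ≤ j ∧ E n j'} from ⟨Nat.lt_succ_iff.1 hj', hn'⟩) h)
              ⟨p, ⟨hp, hpj⟩, rfl⟩
        · refine h1.trans_le (mk_le_mk_of_subset fun y hy j' hj' hn' => ?_)
          rcases (Nat.lt_succ_iff.1 hj').eq_or_lt with rfl | hj'
          · exact absurd hn' hn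
          · exact hy j' hj' hn'
    obtain ⟨y, hy, hy'⟩ := exists_not_mem ((small_biUnion h0 (finite_lt_nat m)
      (f := fun j => S j φ) fun _ _ => hS _ _).trans (hZ m le_rfl))
    refine ⟨Function.update φ n y, fun j hj p hp hp' => ?_⟩
    by_cases hn : E n j
    · have hp2 : p < n := (Nat.lt_succ_iff.1 hp).lt_of_ne fun e => hp' (e ▸ hn)
      rw [hu _ _ _ hp2]
      exact hy j hj hn p hp2 hp'
    · rw [hD j hj (Function.update φ n y) φ fun q hq hq' =>
        hu _ _ _ ((Nat.lt_succ_iff.1 hq).lt_of_ne fun e => hn (e ▸ hq'))]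
      rcases (Nat.lt_succ_iff.1 hp).eq_or_lt with rfl | hp
      · rw [Function.update_self]
        exact fun h => hy' (mem_biUnion (t := fun j => S j φ) hj h)
      · rw [hu _ _ _ hp]
        simpa [hn] using hφ j hj p hp hp'

end Pool.Agent.Lib.MP_cabec5_lc
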