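import Pool.Agent.Lib.MP_cabec5_lc.Closure

/-!
Graphs without an infinite half graph.
-/

namespace Pool.Agent.Lib.MP_cabec5_lc

open Cardinal Set Filter

variable {V : Type}

theorem exists_half (G : SimpleGraph V) {P Q : Set V}
    (h1 : ∀ s : List V, (∀ x ∈ s, x ∈ P) → ∃ b ∈ Q, ∀ x ∈ s, G.Adj x b)
    (h2 : ∀ t : List V, (∀ x ∈ t, x ∈ Q) → ∃ a ∈ P, ∀ x ∈ t, ¬ G.Adj a x) :
    ∃ a b : ℕ → V, ∀ i j, G.Adj (a i) (b j) ↔ i < j := by
  obtain ⟨f, hf, hr⟩ := exists_seq_of_forall_finset_exists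
    (fun p : V × V => p.1 ∈ P ∧ p.2 ∈ Q ∧ ¬ G.Adj p.1 p.2)
    (fun p q => G.Adj p.1 q.2 ∧ ¬ G.Adj q.1 p.2) (fun s hs => by
      obtain ⟨b, hb, h3⟩ := h1 (s.toList.map Prod.fst) fun x hx => by
        obtain ⟨p, hp, rfl⟩ := List.mem_map.1 hx
        exact (hs p (Finset.mem_toList.1 hp)).1
      obtain ⟨a, ha, h4⟩ := h2 (b :: s.toList.map Prod.snd) fun x hx => by
        rcases List.mem_cons.1 hx with rfl | hx
        · exact hb
        · obtain ⟨p, hp, rfl⟩ := List.mem_map.1 hx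
          exact (hs p (Finset.mem_toList.1 hp)).2.1
      refine ⟨(a, b), ⟨ha, hb, h4 _ List.mem_cons_self⟩, fun p hp => ⟨h3 _ ?_, h4 _ ?_⟩⟩
      · exact List.mem_map_of_mem (Finset.mem_toList.2 hp)
      · exact List.mem_cons_of_mem _ (List.mem_map_of_mem (Finset.mem_toList.2 hp)))
  refine ⟨fun i => (f i).1, fun j => (f j).2, fun i j => ⟨fun h => ?_, fun h => (hr i j h).1⟩⟩
  by_contra hij
  rcases (not_lt.1 hij).eq_or_lt with e | e
  · subst e; exact (hf j).2.2 h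
  · exact (hr j i e).2 h

theorem exists_uniform {lam : Cardinal} (h0 : ℵ₀ ≤ lam) {A : Set V} (hA : lam ≤ #A) :
    ∃ F : Ultrafilter V, A ∈ F ∧ ∀ s ∈ F, lam ≤ #s := by
  let F := comk (fun s : Set V => #(s ∩ A : Set V) < lam)
    (by simpa using aleph0_pos.trans_le h0)
    (fun t ht s hs => (mk_le_mk_of_subset (inter_subset_inter_left _ hs)).trans_lt ht)
    (fun s hs t ht => by
      rw [union_inter_distrib_right]
      exact (mk_union_le _ _).trans_lt (add_lt_of_lt h0 hs ht))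
  have : F.NeBot := ⟨fun h => by
    have : (∅ : Set V) ∈ F := h ▸ mem_bot
    rw [mem_comk, compl_empty, univ_inter] at this
    exact absurd hA (not_le.2 this)⟩
  refine ⟨Ultrafilter.of F, Ultrafilter.of_le F (mem_comk.2 ?_), fun s hs => ?_⟩
  · simpa using aleph0_pos.trans_le h0
  · by_contra h
    refine Ultrafilter.compl_notMem_iff.2 hs (Ultrafilter.of_le F (mem_comk.2 ?_))
    rw [compl_compl]
    exact (mk_le_mk_of_subset inter_subset_left).trans_lt (not_le.1 h)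

theorem col_of_half_free (G : SimpleGraph V) {lam : Cardinal} (h0 : ℵ₀ ≤ lam)
    (hH : ¬ ∃ a b : ℕ → V, ∀ i j, G.Adj (a i) (b j) ↔ i < j)
    (hK : ¬ ∃ A B : Set V, #A = Order.succ lam ∧ #B = lam ∧ ∀ a ∈ A, ∀ b ∈ B, G.Adj a b) :
    ∃ r : V → V → Prop, IsWellOrder V r ∧ ∀ v, #{u // r u v ∧ G.Adj u v} < lam := by
  rcases isEmpty_or_nonempty V with hV | hV
  · exact ⟨WellOrderingRel, inferInstance, fun v => isEmptyElim v⟩
  have hB : ∀ l : List V, ∃ B C : Set V, #B ≤ lam ∧ #C ≤ lam ∧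
      (lam ≤ #{x | ∀ c ∈ l, G.Adj c x} → (∀ x ∈ B, ∀ c ∈ l, G.Adj c x) ∧
        ∀ y, (∀ x ∈ B, G.Adj y x) → y ∈ C) := fun l => by
    by_cases h : lam ≤ #{x | ∀ c ∈ l, G.Adj c x}
    · obtain ⟨B, hB, hc⟩ := le_mk_iff_exists_subset.1 h
      refine ⟨B, {y | ∀ x ∈ B, G.Adj y x}, hc.le, ?_, fun _ => ⟨hB, fun y hy => hy⟩⟩
      by_contra h'
      obtain ⟨A, hA, hc'⟩ := le_mk_iff_exists_subset.1 (Order.succ_le_of_lt (not_le.1 h'))
      exact hK ⟨A, B, hc', hc, hA⟩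
    · exact ⟨∅, ∅, by simp, by simp, fun h' => absurd h' h⟩
  choose B C hB hC hBC using hB
  have him : ∀ s t : List V, ∃ c, ∀ v, ((∀ x ∈ s, G.Adj x v) ∧ ∀ x ∈ t, ¬ G.Adj v x) →
      (∀ x ∈ s, G.Adj x c) ∧ ∀ x ∈ t, ¬ G.Adj c x := fun s t => by
    by_cases h : ∃ v, (∀ x ∈ s, G.Adj x v) ∧ ∀ x ∈ t, ¬ G.Adj v x
    · obtain ⟨v, hv⟩ := h
      exact ⟨v, fun _ _ => hv⟩
    · exact ⟨Classical.arbitrary V, fun v hv => absurd ⟨v, hv⟩ h⟩
  choose im him using him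
  refine col_le_of_closed (F := fun l => B l ∪ C l ∪ range fun k => im (l.take k) (l.drop k)) h0
    (fun l => ?_) fun X hX v hv => ?_
  · refine (mk_union_le _ _).trans (add_le_of_le h0
      ((mk_union_le _ _).trans (add_le_of_le h0 (hB l) (hC l))) ?_)
    exact mk_range_le.trans (by simpa using h0)
  by_contra hA
  obtain ⟨F, hAF, hF⟩ := exists_uniform h0 (not_lt.1 hA)
  have hi : ∀ s t : List V, (∀ x ∈ s, x ∈ X ∧ G.Adj x v) → (∀ x ∈ t, x ∈ X ∧ ¬ G.Adj v x) →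
      ∃ c ∈ X, (∀ x ∈ s, G.Adj x c) ∧ ∀ x ∈ t, ¬ G.Adj c x := fun s t hs ht =>
    ⟨im s t, hX (s ++ t) (fun x hx => (List.mem_append.1 hx).elim (fun h => (hs x h).1)
      fun h => (ht x h).1) (Or.inr ⟨s.length, by simp⟩),
      him s t v ⟨fun x hx => (hs x hx).2, fun x hx => (ht x hx).2⟩⟩
  by_cases hc : ∀ t : List V, (∀ x ∈ t, x ∈ X ∧ ¬ G.Adj v x) →
      ∃ c ∈ {c | c ∈ X ∧ {x | G.Adj c x} ∈ F}, ∀ x ∈ t, ¬ G.Adj c x
  · refine hH (exists_half G (Q := {x | x ∈ X ∧ ¬ G.Adj v x}) (fun s hs => ?_) hc)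
    have h1 : {x | ∀ c ∈ s, G.Adj c x} ∈ F := by
      have : ∀ᶠ x in F, ∀ c ∈ {c | c ∈ s}, G.Adj c x :=
        (eventually_all_finite s.finite_toSet).2 fun c hc => (hs c hc).2
      exact this
    obtain ⟨h2, h3⟩ := hBC s (hF _ h1)
    have h4 := hX s fun x hx => (hs x hx).1
    by_contra h5
    refine hv (h4 (Or.inl (Or.inr (h3 v fun x hx => ?_))))
    by_contra h6
    exact h5 ⟨x, ⟨h4 (Or.inl (Or.inl hx)), h6⟩, h2 x hx⟩
  · push Not at hc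
    obtain ⟨t, ht, hc⟩ := hc
    refine hH (exists_half G (P := {u | u ∈ X ∧ G.Adj u v})
      (Q := {c | {x | G.Adj c x} ∉ F}) (fun s hs => ?_) fun s hs => ?_)
    · obtain ⟨c, hcX, h1, h2⟩ := hi s t hs ht
      refine ⟨c, fun h => ?_, h1⟩
      obtain ⟨x, hx, h3⟩ := hc c ⟨hcX, h⟩
      exact h2 x hx h3
    · have : ∀ᶠ x in F, ∀ c ∈ {c | c ∈ s}, ¬ G.Adj c x :=
        (eventually_all_finite s.finite_toSet).2 fun c hc =>
          Ultrafilter.compl_mem_iff_notMem.2 (hs c hc)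
      obtain ⟨a, ha, h1⟩ := (Eventually.and hAF this).exists
      exact ⟨a, ha, fun x hx h => h1 x hx h.symm⟩

theorem no_K_of_col (G : SimpleGraph V) {lam : Cardinal} (h0 : ℵ₀ ≤ lam)
    {r : V → V → Prop} (hr : IsWellOrder V r) (h : ∀ v, #{u // r u v ∧ G.Adj u v} < lam) :
    ¬ ∃ A B : Set V, #A = Order.succ lam ∧ #B = lam ∧ ∀ a ∈ A, ∀ b ∈ B, G.Adj a b := by
  rintro ⟨A, B, hA, hB, hAB⟩
  have h1 : #(⋃ b : B, {u | r u b ∧ G.Adj u b}) ≤ lam := by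
    refine (mk_iUnion_le _).trans (mul_le_of_le h0 hB.le (ciSup_le' fun b => (h b).le))
  have h2 : ¬ A ⊆ ⋃ b : B, {u | r u b ∧ G.Adj u b} := fun hs =>
    absurd ((mk_le_mk_of_subset hs).trans h1) (by rw [hA]; exact not_le.2 (Order.lt_succ _))
  obtain ⟨a, ha, h3⟩ := not_subset.1 h2
  have h4 : B ⊆ {u | r u a ∧ G.Adj u a} := fun b hb => by
    refine ⟨?_, (hAB a ha b hb).symm⟩
    rcases trichotomous_of r b a with h | h | h
    · exact h
    · exact absurd h.symm (hAB a ha b hb).ne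
    · exact h3.elim (mem_iUnion.2 ⟨⟨b, hb⟩, h, hAB a ha b hb⟩)
  exact absurd (hB ▸ mk_le_mk_of_subset h4) (not_le.2 (h a))

end Pool.Agent.Lib.MP_cabec5_lc
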