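import Mathlib

/-!
A finite bipartite graph without induced cycles of length at least six has a vertex order
without the pattern Γ (a doubly lexical order).
-/

namespace Pool.Agent.Lib.MP_cabec5_lc

open SimpleGraph Finset Matrix
open scoped symmDiff

variable {W : Type} {H : SimpleGraph W}

theorem exists_lexical [Fintype W] (H : SimpleGraph W) : ∃ a : W ≃ Fin (Fintype.card W),
    ∀ k l x, a k < a l → ¬ H.Adj k l → H.Adj k x → ¬ H.Adj l x →
      ∃ y, H.Adj l y ∧ ¬ H.Adj k y ∧ a x < a y ∧ ∀ z, a y < a z → (H.Adj k z ↔ H.Adj l z) := by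
  classical
  let w : (W ≃ Fin (Fintype.card W)) → W → ℤ := fun a x => 2 ^ (a x : ℕ)
  obtain ⟨a, -, ha⟩ := exists_max_image (univ : Finset (W ≃ Fin (Fintype.card W)))
    (fun a => w a ⬝ᵥ H.adjMatrix ℤ *ᵥ w a) ⟨Fintype.equivFin W, mem_univ _⟩
  refine ⟨a, fun k l x hkl hA hk hl => ?_⟩
  have hne : k ≠ l := fun e => absurd (e ▸ hkl) (lt_irrefl _)
  have hδ : 0 < w a l - w a k := sub_pos.2 (pow_lt_pow_right₀ one_lt_two hkl)
  have h1 : w ((Equiv.swap k l).trans a) =
      w a + (Pi.single k (w a l - w a k) - Pi.single l (w a l - w a k)) := by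
    funext z
    by_cases h1 : z = k
    · subst h1; simp [w, hne]
    · by_cases h2 : z = l
      · subst h2; simp [w, h1]
      · simp [w, h1, h2, Equiv.swap_apply_of_ne_of_ne]
  have h2 := ha ((Equiv.swap k l).trans a) (mem_univ _)
  have h3 : ∀ u v : W → ℤ, u ⬝ᵥ H.adjMatrix ℤ *ᵥ v = v ⬝ᵥ H.adjMatrix ℤ *ᵥ u := fun u v => by
    rw [dotProduct_mulVec, ← mulVec_transpose, transpose_adjMatrix, dotProduct_comm]
  have hA' : ¬ H.Adj l k := fun h => hA h.symm
  have h4 : (H.adjMatrix ℤ *ᵥ w a) k ≤ (H.adjMatrix ℤ *ᵥ w a) l := by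
    simp only [h1] at h2
    generalize w a l - w a k = δ at hδ h2
    rw [mulVec_add, add_dotProduct, dotProduct_add, dotProduct_add, h3 (w a) (_ - _)] at h2
    simp only [sub_dotProduct, single_dotProduct, mulVec_sub, Pi.sub_apply, mulVec_single,
      Pi.smul_apply, col_apply, adjMatrix_apply, hA, hA', H.irrefl, if_false, smul_zero] at h2
    nlinarith
  let f : W ↪ ℕ := ⟨fun y => a y, fun y z e => a.injective (Fin.ext e)⟩
  have hf : ∀ u y, f y ∈ (H.neighborFinset u).map f ↔ H.Adj u y := fun u y => by simp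
  have h5 : toColex ((H.neighborFinset k).map f) ≤ toColex ((H.neighborFinset l).map f) := by
    rw [← geomSum_le_geomSum_iff_toColex_le_toColex le_rfl, sum_map, sum_map]
    rw [adjMatrix_mulVec_apply, adjMatrix_mulVec_apply] at h4
    have h5 : ∀ u, w a u = ((2 ^ f u : ℕ) : ℤ) := fun u => by push_cast; rfl
    simp only [h5] at h4
    exact_mod_cast h4
  have h6 : (H.neighborFinset k).map f ≠ (H.neighborFinset l).map f := fun e =>
    hl ((hf l x).1 (e ▸ (hf k x).2 hk))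
  have h7 := Colex.toColex_le_toColex_iff_max'_mem.1 h5 h6
  have h8 := max'_mem _ (symmDiff_nonempty.2 h6)
  have h9 := fun t => le_max' ((H.neighborFinset k).map f ∆ (H.neighborFinset l).map f) t
  obtain ⟨y, hy, e⟩ := mem_map.1 h7
  rw [mem_neighborFinset] at hy
  simp only [← e, mem_symmDiff] at h8 h9
  rw [hf, hf] at h8
  refine ⟨y, hy, by tauto, ?_, fun z hz => ?_⟩
  · have := h9 (f x) (by rw [hf, hf]; tauto)
    exact lt_of_le_of_ne this fun e => hl (a.injective e ▸ hy)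
  · by_contra h
    exact absurd (h9 (f z) (by rw [hf, hf]; tauto)) (not_le.2 hz)

theorem cycle_of_zigzag (c : H.Coloring (Fin 2)) {I J : ℕ → W} {M : ℕ}
    (hI : ∀ s ≤ M, ∀ t ≤ M, I s = I t → s = t) (hJ : ∀ s ≤ M, ∀ t ≤ M, J s = J t → s = t)
    (cI : ∀ s ≤ M, c (I s) = c (I 0)) (cJ : ∀ s ≤ M, c (J s) = c (J 0))
    (h : ∀ s ≤ M, ∀ t ≤ M, H.Adj (I s) (J t) ↔
      s = t + 1 ∨ t = s + 1 ∨ (s = 0 ∧ t = 0) ∨ (s = M ∧ t = M)) :
    (cycleGraph (2 * M + 2)).IsIndContained H := by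
  have h0 : c (I 0) ≠ c (J 0) := c.valid ((h 0 (by omega) 0 (by omega)).2 (by omega))
  obtain ⟨d, hd, hd'⟩ : ∃ d : Fin (2 * M + 2) → ℕ, (∀ u, d u ≤ M) ∧
      ∀ u, (u.val ≤ M ∧ d u = u) ∨ (M < u.val ∧ d u + u = 2 * M + 1) :=
    ⟨fun u => if u.val ≤ M then u else 2 * M + 1 - u, fun u => by
      have := u.2; dsimp only; split_ifs <;> omega, fun u => by
      have := u.2; dsimp only; split_ifs <;> omega⟩
  have hc : ∀ u v : Fin (2 * M + 2), (u - v).val = 1 ↔
      u.val = v + 1 ∨ (u.val = 0 ∧ v.val = 2 * M + 1) := fun u v => by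
    have := u.2
    have := v.2
    rcases le_or_gt v u with h | h
    · rw [Fin.coe_sub_iff_le.2 h]; have := Fin.le_def.1 h; omega
    · rw [Fin.coe_sub_iff_lt.2 h]; have := Fin.lt_def.1 h; omega
  refine ⟨⟨⟨fun u => if u.val % 2 = 0 then I (d u) else J (d u), fun u v e => ?_⟩, fun {u v} => ?_⟩⟩
  · have hu := hd' u
    have hv := hd' v
    dsimp only at e
    split_ifs at e with h1 h2 h2
    · have := hI _ (hd u) _ (hd v) e; ext; omega
    · exact absurd (by rw [← cI _ (hd u), e, cJ _ (hd v)]) h0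
    · exact absurd (by rw [← cI _ (hd v), ← e, cJ _ (hd u)]) h0
    · have := hJ _ (hd u) _ (hd v) e; ext; omega
  · have hu := hd' u
    have hv := hd' v
    rw [cycleGraph_adj', hc, hc]
    change H.Adj (if u.val % 2 = 0 then I (d u) else J (d u))
      (if v.val % 2 = 0 then I (d v) else J (d v)) ↔ _
    split_ifs with h1 h2 h2
    · exact iff_of_false (fun a => c.valid a (by rw [cI _ (hd u), cI _ (hd v)])) (by omega)
    · rw [h _ (hd u) _ (hd v)]; omega
    · rw [H.adj_comm, h _ (hd v) _ (hd u)]; omega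
    · exact iff_of_false (fun a => c.valid a (by rw [cJ _ (hd u), cJ _ (hd v)])) (by omega)

/-- one half of the invariant of the zigzag construction -/
def Zig {N : ℕ} (H : SimpleGraph W) (c : H.Coloring (Fin 2)) (a : W ≃ Fin N) (n : ℕ)
    (I J : ℕ → W) : Prop :=
  (∀ s ≤ n, a (I s) < a (I (s + 1))) ∧ (∀ s ≤ n + 1, c (I s) = c (I 0)) ∧
    (∀ z, a (I (n + 1)) < a z → ∀ s ≤ n, (H.Adj (J s) z ↔ H.Adj (J n) z)) ∧
    ∀ s ≤ n + 1, ∀ t ≤ n + 1, H.Adj (I s) (J t) ↔ s = t + 1 ∨ t = s + 1 ∨ (s = 0 ∧ t = 0)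

theorem zig_step {N : ℕ} (c : H.Coloring (Fin 2)) {a : W ≃ Fin N}
    (ha : ∀ k l x, a k < a l → ¬ H.Adj k l → H.Adj k x → ¬ H.Adj l x →
      ∃ y, H.Adj l y ∧ ¬ H.Adj k y ∧ a x < a y ∧ ∀ z, a y < a z → (H.Adj k z ↔ H.Adj l z))
    {n : ℕ} {I J : ℕ → W} (h1 : Zig H c a n I J) (h2 : Zig H c a n J I) :
    ∃ y, a (I (n + 1)) < a y ∧ c y = c (I 0) ∧ (∀ t ≤ n + 1, H.Adj y (J t) ↔ t = n + 1) ∧
      ∀ z, a y < a z → ∀ s ≤ n + 1, (H.Adj (J s) z ↔ H.Adj (J (n + 1)) z) := by
  obtain ⟨y, y1, y2, y3, y4⟩ := ha (J n) (J (n + 1)) (I (n + 1)) (h2.1 n le_rfl)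
    (fun a => c.valid a (by rw [h2.2.1 n (by omega), h2.2.1 _ le_rfl]))
    ((h2.2.2.2 n (by omega) _ le_rfl).2 (by omega))
    (by rw [h2.2.2.2 _ le_rfl _ le_rfl]; omega)
  refine ⟨y, y3, ?_, fun t ht => ?_, fun z hz s hs => ?_⟩
  · have e1 := c.valid y1
    have e2 := c.valid ((h2.2.2.2 (n + 1) le_rfl n (by omega)).2 (by omega))
    rw [h1.2.1 n (by omega)] at e2
    omega
  · rcases ht.eq_or_lt with rfl | ht
    · exact iff_of_true y1.symm rfl
    · rw [H.adj_comm, h1.2.2.1 y y3 t (by omega)]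
      exact iff_of_false y2 ht.ne
  · rcases hs.eq_or_lt with rfl | hs
    · rfl
    · rw [h1.2.2.1 z (y3.trans hz) s (by omega), y4 z hz]

theorem zig_next {N : ℕ} (c : H.Coloring (Fin 2)) {a : W ≃ Fin N} {n : ℕ} {I J : ℕ → W} {y y' : W}
    (h1 : Zig H c a n I J)
    (hy : a (I (n + 1)) < a y ∧ c y = c (I 0) ∧ (∀ t ≤ n + 1, H.Adj y (J t) ↔ t = n + 1) ∧
      ∀ z, a y < a z → ∀ s ≤ n + 1, (H.Adj (J s) z ↔ H.Adj (J (n + 1)) z))
    (hy' : ∀ t ≤ n + 1, H.Adj y' (I t) ↔ t = n + 1) :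
    (∀ s ≤ n + 1, a (Function.update I (n + 2) y s) < a (Function.update I (n + 2) y (s + 1))) ∧
    (∀ s ≤ n + 2, c (Function.update I (n + 2) y s) = c (Function.update I (n + 2) y 0)) ∧
    (∀ z, a (Function.update I (n + 2) y (n + 2)) < a z → ∀ s ≤ n + 1,
      (H.Adj (Function.update J (n + 2) y' s) z ↔ H.Adj (Function.update J (n + 2) y' (n + 1)) z)) ∧
    ∀ s ≤ n + 2, ∀ t ≤ n + 2,
      H.Adj (Function.update I (n + 2) y s) (Function.update J (n + 2) y' t) ↔
        s = t + 1 ∨ t = s + 1 ∨ (s = 0 ∧ t = 0) ∨ (s = n + 2 ∧ t = n + 2 ∧ H.Adj y y') := by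
  have hu : ∀ (K : ℕ → W) (x : W), ∀ s ≤ n + 1, Function.update K (n + 2) x s = K s :=
    fun K x s hs => Function.update_of_ne (by omega) _ _
  refine ⟨fun s hs => ?_, fun s hs => ?_, fun z hz s hs => ?_, fun s hs t ht => ?_⟩
  · rcases hs.eq_or_lt with rfl | hs
    · rw [hu _ _ _ le_rfl, Function.update_self]; exact hy.1
    · rw [hu _ _ _ hs.le, hu _ _ _ hs]; exact h1.1 s (by omega)
  · rw [hu _ _ 0 (by omega)]
    rcases hs.eq_or_lt with rfl | hs
    · rw [Function.update_self]; exact hy.2.1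
    · rw [hu _ _ _ (by omega)]; exact h1.2.1 s (by omega)
  · rw [Function.update_self] at hz
    rw [hu _ _ _ hs, hu _ _ _ le_rfl]
    exact hy.2.2.2 z hz s hs
  · rcases hs.eq_or_lt with rfl | hs <;> rcases ht.eq_or_lt with rfl | ht
    · simp
    · rw [Function.update_self, hu _ _ _ (by omega), hy.2.2.1 t (by omega)]
      have : t ≠ n + 2 := ht.ne
      simp only [this, false_and, and_false, or_false]
      omega
    · rw [Function.update_self, hu _ _ _ (by omega), H.adj_comm, hy' s (by omega)]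
      have : s ≠ n + 2 := hs.ne
      simp only [this, false_and, or_false]
      omega
    · rw [hu _ _ _ (by omega), hu _ _ _ (by omega), h1.2.2.2 s (by omega) t (by omega)]
      have : s ≠ n + 2 := hs.ne
      simp only [this, false_and, or_false]

theorem exists_gamma_free [Fintype W] (hb : H.IsBipartite)
    (hc : ∀ n, 6 ≤ n → ¬ (cycleGraph n).IsIndContained H) : ∃ a : W ≃ Fin (Fintype.card W),
    ∀ i i' j j', a i < a i' → a j < a j' → H.Adj i j → H.Adj i j' → H.Adj i' j → H.Adj i' j' := by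
  obtain ⟨c⟩ := hb
  obtain ⟨a, ha⟩ := exists_lexical H
  refine ⟨a, fun i i' j j' hi hj h1 h2 h3 => ?_⟩
  by_contra h4
  have mono : ∀ {K : ℕ → W} {n : ℕ}, (∀ s ≤ n, a (K s) < a (K (s + 1))) →
      ∀ t ≤ n + 1, ∀ s ≤ t, (a (K s) : ℕ) + t ≤ a (K t) + s := by
    intro K n h t ht s hs
    induction t, hs using Nat.le_induction with
    | base => exact le_rfl
    | succ t hs ih =>
      have := ih (by omega)
      have := Fin.lt_def.1 (h t (by omega))
      omega
  have inj : ∀ {K : ℕ → W} {n : ℕ}, (∀ s ≤ n, a (K s) < a (K (s + 1))) →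
      ∀ s ≤ n + 1, ∀ t ≤ n + 1, K s = K t → s = t := by
    intro K n h s hs t ht e
    rcases le_total s t with h' | h'
    · have := mono h t ht s h'; rw [e] at this; omega
    · have := mono h s hs t h'; rw [e] at this; omega
  have base : ∀ {i i' j j' : W}, a i < a i' → H.Adj i j → H.Adj i j' → H.Adj i' j → ¬ H.Adj i' j' →
      Zig H c a 0 (fun s => if s = 0 then i else i') (fun s => if s = 0 then j else j') := by
    intro i i' j j' hi h1 h2 h3 h4
    refine ⟨fun s hs => ?_, fun s hs => ?_, fun z _ s hs => ?_, fun s hs t ht => ?_⟩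
    · obtain rfl := Nat.le_zero.1 hs; simpa using hi
    · have e1 := c.valid h1
      have e2 := c.valid h3
      interval_cases s
      · rfl
      · simp only [one_ne_zero, if_false, if_true]; omega
    · obtain rfl := Nat.le_zero.1 hs; rfl
    · interval_cases s <;> interval_cases t <;> simp [h1, h2, h3, h4]
  have key : ∀ n, ∃ I J, Zig H c a n I J ∧ Zig H c a n J I := fun n => by
    induction n with
    | zero => exact ⟨_, _, base hi h1 h2 h3 h4,
        base hj h1.symm h3.symm h2.symm fun h => h4 h.symm⟩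
    | succ n ih =>
      obtain ⟨I, J, z1, z2⟩ := ih
      obtain ⟨y, hy⟩ := zig_step c ha z1 z2
      obtain ⟨y', hy'⟩ := zig_step c ha z2 z1
      obtain ⟨p1, p2, p3, p4⟩ := zig_next c z1 hy hy'.2.2.1
      obtain ⟨q1, q2, q3, q4⟩ := zig_next c z2 hy' hy.2.2.1
      by_cases h : H.Adj y y'
      · exact absurd (cycle_of_zigzag c (inj p1) (inj q1) p2 q2
          (by simpa only [h, and_true] using p4)) (hc _ (by omega))
      · have h' : ¬ H.Adj y' y := fun e => h e.symm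
        exact ⟨_, _, ⟨p1, p2, p3, by simpa only [h, and_false, or_false] using p4⟩,
          ⟨q1, q2, q3, by simpa only [h', and_false, or_false] using q4⟩⟩
  obtain ⟨I, J, z, -⟩ := key (Fintype.card W)
  have := mono z.1 _ le_rfl 0 (by omega)
  have := (a (I (Fintype.card W + 1))).2
  omega

end Pool.Agent.Lib.MP_cabec5_lc
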