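import Pool.Agent.Lib.MP_cabec5_lc.Closure
import Pool.Agent.Lib.MP_cabec5_lc.Free
import Pool.Agent.Lib.MP_cabec5_lc.Nest

/-!
If `lam ^ θ = lam`, a graph without `K(lam⁺, θ)` and of colouring number above `lam` contains
every finite chordal bipartite graph as an induced subgraph.
-/

namespace Pool.Agent.Lib.MP_cabec5_lc

open Cardinal Set Order

variable {U : Type} {G : SimpleGraph U} {θ lam : Cardinal.{0}}

/-- the vertices with at least `θ` neighbours in `W` -/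
def Bad (G : SimpleGraph U) (θ : Cardinal.{0}) (W : Set U) : Set U :=
  {v | θ ≤ #{u | u ∈ W ∧ G.Adj u v}}

theorem card_bad (h0 : ℵ₀ ≤ lam) (hp : lam ^ θ ≤ lam)
    (hK : ∀ B : Set U, #B = θ → #{v | ∀ b ∈ B, G.Adj v b} ≤ lam) {W : Set U} (hW : #W ≤ lam) :
    #(Bad G θ W) ≤ lam := by
  have h4 : #{B : Set U | B ⊆ W ∧ #B = θ} ≤ lam :=
    ((mk_le_mk_of_subset (t := {B | B ⊆ W ∧ #B ≤ θ}) fun B hB => ⟨hB.1, hB.2.le⟩).trans
      (mk_bounded_subset_le W θ)).trans ((power_le_power_right (max_le hW h0)).trans hp)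
  refine (mk_le_mk_of_subset fun v hv => ?_).trans (le_biUnion h0 h4 fun B hB => hK B hB.2)
  obtain ⟨B, hB, hc⟩ := le_mk_iff_exists_subset.1 (show θ ≤ _ from hv)
  exact mem_biUnion (show B ∈ {B : Set U | B ⊆ W ∧ #B = θ} from ⟨fun b hb => (hB hb).1, hc⟩)
    fun b hb => (hB hb).2.symm

theorem exists_transversal {ι : Type} (h0 : ℵ₀ ≤ θ) (hl : θ < lam)
    (hK : ∀ B : Set U, #B = θ → #{v | ∀ b ∈ B, G.Adj v b} ≤ lam) [Nonempty U] (s : Finset ι)
    (Z : ι → Set U) (hZ : ∀ j ∈ s, lam < #(Z j)) : ∃ b : ι → U, (∀ j ∈ s, b j ∈ Z j) ∧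
      ∀ i ∈ s, ∀ j ∈ s, i ≠ j → b i ≠ b j ∧ ¬ G.Adj (b i) (b j) := by
  classical
  have h1 : ℵ₀ ≤ lam := h0.trans hl.le
  induction s using Finset.induction_on generalizing Z with
  | empty => exact ⟨fun _ => Classical.arbitrary U, by simp, by simp⟩
  | insert a s ha ih =>
    have h2 : ∀ j ∈ (s : Set ι), #{x | #{z | z ∈ Z j ∧ x ≠ z ∧ ¬ G.Adj x z} ≤ lam} < θ := by
      intro j hj
      by_contra h
      obtain ⟨B, hB, hc⟩ := le_mk_iff_exists_subset.1 (not_lt.1 h)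
      have h3 := hc.le.trans hl.le
      refine absurd ((mk_le_mk_of_subset (t := ({v | ∀ b ∈ B, G.Adj v b} ∪ B) ∪
        ⋃ x ∈ B, {z | z ∈ Z j ∧ x ≠ z ∧ ¬ G.Adj x z}) fun z hz => ?_).trans
        ((mk_union_le _ _).trans (add_le_of_le h1 ((mk_union_le _ _).trans
          (add_le_of_le h1 (hK B hc) h3)) (le_biUnion h1 h3 hB))))
        (not_le.2 (hZ j (Finset.mem_insert_of_mem hj)))
      by_contra h4
      refine h4 (Or.inl (Or.inl fun b hb => ?_))
      by_contra h5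
      exact h4 (Or.inr (mem_biUnion hb ⟨hz, fun e => h4 (Or.inl (Or.inr (e ▸ hb))),
        fun h => h5 h.symm⟩))
    obtain ⟨x, hx, h3⟩ := exists_not_mem (((small_biUnion h0 s.finite_toSet h2).trans
      hl).trans (hZ a (Finset.mem_insert_self _ _)))
    obtain ⟨b, hb, hb'⟩ := ih (fun j => {z | z ∈ Z j ∧ x ≠ z ∧ ¬ G.Adj x z}) fun j hj =>
      not_le.1 fun h => h3 (mem_biUnion (show j ∈ (s : Set ι) from hj) h)
    have hu : ∀ j ∈ s, Function.update b a x j = b j := fun j hj =>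
      Function.update_of_ne (fun e : j = a => ha (e ▸ hj)) _ _
    refine ⟨Function.update b a x, fun j hj => ?_, fun i hi j hj hij => ?_⟩
    · rcases Finset.mem_insert.1 hj with rfl | hj
      · simpa using hx
      · rw [hu j hj]; exact (hb j hj).1
    · rcases Finset.mem_insert.1 hi with e | hi' <;> rcases Finset.mem_insert.1 hj with e' | hj'
      · exact absurd (e.trans e'.symm) hij
      · rw [hu j hj', e, Function.update_self]; exact (hb j hj').2
      · rw [hu i hi', e', Function.update_self]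
        exact ⟨(hb i hi').2.1.symm, fun h => (hb i hi').2.2 h.symm⟩
      · rw [hu i hi', hu j hj']; exact hb' i hi' j hj' hij

theorem exists_trace (h1 : ℵ₀ ≤ lam) (hp : lam ^ θ ≤ lam)
    (hK : ∀ B : Set U, #B = θ → #{v | ∀ b ∈ B, G.Adj v b} ≤ lam) {A : Set U}
    (hA : #A ≤ lam) {s : Set A} (hs : lam < #{y | ∀ x ∈ s, G.Adj x.1 y}) :
    ∃ t : Set A, #t < θ ∧ s ⊆ t ∧ lam < #{w | w ∉ A ∧ ∀ x : A, G.Adj x w ↔ x ∈ t} := by
  by_contra h
  push Not at h
  have h2 : #{t : Set A | #t < θ ∧ s ⊆ t} ≤ lam :=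
    ((mk_le_mk_of_subset (t := {t : Set A | #t ≤ θ}) fun t ht => ht.1.le).trans
      (mk_bounded_set_le A θ)).trans ((power_le_power_right (max_le hA h1)).trans hp)
  refine absurd ((mk_le_mk_of_subset (t := (A ∪ Bad G θ A) ∪ ⋃ t ∈ {t : Set A | #t < θ ∧ s ⊆ t},
    {w | w ∉ A ∧ ∀ x : A, G.Adj x w ↔ x ∈ t}) fun w hw => ?_).trans
    ((mk_union_le _ _).trans (add_le_of_le h1 ((mk_union_le _ _).trans
      (add_le_of_le h1 hA (card_bad h1 hp hK hA)))
      (le_biUnion h1 h2 fun t ht => h t ht.1 ht.2)))) (not_le.2 hs)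
  by_cases h3 : w ∈ A ∪ Bad G θ A
  · exact Or.inl h3
  · refine Or.inr (mem_biUnion (x := {x : A | G.Adj x w}) ⟨?_, hw⟩
      ⟨fun h => h3 (Or.inl h), fun _ => Iff.rfl⟩)
    refine lt_of_le_of_lt ?_ (not_le.1 fun h => h3 (Or.inr h))
    refine le_trans (mk_le_mk_of_subset fun x hx => ?_)
      (mk_preimage_of_injective Subtype.val _ Subtype.val_injective)
    exact ⟨x.2, hx⟩

theorem induced_of_trace {W : Type} [Fintype W] {H : SimpleGraph W} (hb : H.IsBipartite)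
    (hc : ∀ n, 6 ≤ n → ¬ (SimpleGraph.cycleGraph n).IsIndContained H)
    (h0 : ℵ₀ ≤ θ) (hl : θ < lam) (hp : lam ^ θ ≤ lam)
    (hK : ∀ B : Set U, #B = θ → #{v | ∀ b ∈ B, G.Adj v b} ≤ lam) {A : Set U}
    (hA : θ < #A) (hA' : #A ≤ lam)
    (hs : ∀ s : Set A, s.Finite → lam < #{y | ∀ x ∈ s, G.Adj x.1 y})
    (g : A → Set A) (hg : ∀ u, #(g u) < θ)
    (hg' : ∀ u v, u ∉ g v → v ∉ g u → u ≠ v ∧ ¬ G.Adj u v) : H.IsIndContained G := by
  classical
  obtain ⟨a, ha⟩ := exists_gamma_free hb hc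
  obtain ⟨c⟩ := hb
  have hT : ∀ s : Set A, ∃ t : Set A, #t < θ ∧ (s.Finite → s ⊆ t ∧
      lam < #{w | w ∉ A ∧ ∀ x : A, G.Adj x w ↔ x ∈ t}) := fun s => by
    by_cases h : s.Finite
    · obtain ⟨t, h1, h2⟩ := exists_trace (h0.trans hl.le) hp hK hA' (hs s h)
      exact ⟨t, h1, fun _ => h2⟩
    · exact ⟨∅, by simpa using aleph0_pos.trans_le h0, fun h' => absurd h' h⟩
  choose T hT hT' using hT
  generalize Fintype.card W = N at a ha
  have hN : ∀ x, (a x : ℕ) < N := fun x => (a x).2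
  have hi : ∀ x y, (a x : ℕ) = a y → x = y := fun x y e => a.injective (Fin.ext e)
  let E : ℕ → ℕ → Prop := fun p j =>
    (j < N ∧ p = j) ∨ ∃ x w, N - 1 - a x = p ∧ N + a w = j ∧ H.Adj x w
  have hE : ∀ k < N, ∀ j j', j ≤ j' → j' < N + N → E k j → E k j' → ∀ p < k, E p j → E p j' := by
    rintro k - j j' hj - (⟨h1, rfl⟩ | ⟨x, w, rfl, rfl, h1⟩) h2 p hp h3
    · rcases h3 with ⟨-, rfl⟩ | ⟨_, _, -, h3, -⟩ <;> omega
    · rcases h2 with ⟨h2, -⟩ | ⟨x', w', e1, rfl, h2⟩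
      · omega
      · rcases h3 with ⟨h3, -⟩ | ⟨y, w'', rfl, e2, h3⟩
        · omega
        · obtain rfl := hi x' x (by have := hN x; have := hN x'; omega)
          obtain rfl := hi w'' w (by omega)
          refine Or.inr ⟨y, w', rfl, rfl, ?_⟩
          rcases (show (a w'' : ℕ) ≤ a w' by omega).eq_or_lt with e | e
          · exact hi _ _ e ▸ h3
          · exact ha x' y w'' w' (Fin.lt_def.2 (by omega)) (Fin.lt_def.2 e) h1 h2 h3
  obtain ⟨φ, hφ⟩ := exists_free h0 hA (N + N) E N hE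
    (fun j φ => if j < N then g (φ j) else T (φ '' {p | p < N ∧ E p j}))
    (fun j φ => by split_ifs; exacts [hg _, hT _]) fun j _ φ ψ h => by
      split_ifs with hj
      · rw [h j hj (Or.inl ⟨hj, rfl⟩)]
      · rw [image_congr fun p hp => h p hp.1 hp.2]
  have hfin : ∀ j, (φ '' {p | p < N ∧ E p j}).Finite := fun j =>
    ((finite_lt_nat N).subset fun _ h => h.1).image _
  have : Nonempty U := ⟨φ 0⟩
  obtain ⟨b, hb, hb'⟩ := exists_transversal h0 hl hK Finset.univ _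
    fun (w : W) _ => (hT' _ (hfin (N + a w))).2
  have hlt : ∀ x, N - 1 - a x < N := fun x => by have := hN x; omega
  have f1 : ∀ x y, x ≠ y → φ (N - 1 - a x) ∉ g (φ (N - 1 - a y)) := fun x y h => by
    have := hφ (N - 1 - a y) (by have := hlt y; omega) _ (hlt x) (by
      rintro (⟨-, e⟩ | ⟨_, _, -, e, -⟩)
      · exact h (hi x y (by have := hN x; have := hN y; omega))
      · have := hlt y; omega)
    rwa [if_pos (hlt y)] at this
  have f2 : ∀ x w, G.Adj (φ (N - 1 - a x)) (b w) ↔ H.Adj x w := fun x w => by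
    rw [(hb w (Finset.mem_univ _)).2]
    refine ⟨fun h => ?_, fun h => (hT' _ (hfin _)).1 ⟨_, ⟨hlt x, Or.inr ⟨x, w, rfl, rfl, h⟩⟩, rfl⟩⟩
    by_contra h'
    have := hφ (N + a w) (by have := hN w; omega) _ (hlt x) (by
      rintro (⟨e, -⟩ | ⟨x', w', e1, e2, h1⟩)
      · omega
      · obtain rfl := hi x' x (by have := hN x; have := hN x'; omega)
        obtain rfl := hi w' w (by omega)
        exact h' h1)
    rw [if_neg (by omega)] at this
    exact this h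
  refine ⟨⟨⟨fun x => if c x = 0 then φ (N - 1 - a x) else b x, fun x y e => ?_⟩, fun {x y} => ?_⟩⟩
  · by_contra h
    dsimp only at e
    split_ifs at e
    · exact (hg' _ _ (f1 x y h) (f1 y x (Ne.symm h))).1 (Subtype.ext e)
    · exact (hb y (Finset.mem_univ _)).1 (e ▸ (φ _).2)
    · exact (hb x (Finset.mem_univ _)).1 (e ▸ (φ _).2)
    · exact (hb' x (Finset.mem_univ _) y (Finset.mem_univ _) h).1 e
  · change G.Adj (if c x = 0 then φ (N - 1 - a x) else b x)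
      (if c y = 0 then φ (N - 1 - a y) else b y) ↔ _
    rcases eq_or_ne x y with rfl | h
    · simp
    split_ifs with h1 h2 h2
    · exact iff_of_false (hg' _ _ (f1 x y h) (f1 y x (Ne.symm h))).2
        fun e => c.valid e (h1.trans h2.symm)
    · exact f2 x y
    · rw [G.adj_comm, H.adj_comm]; exact f2 y x
    · exact iff_of_false (hb' x (Finset.mem_univ _) y (Finset.mem_univ _) h).2
        fun e => c.valid e (by omega)

theorem exists_sparse (h0 : ℵ₀ ≤ θ) (hl : θ < lam) (hp : lam ^ θ ≤ lam)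
    (hK : ∀ B : Set U, #B = θ → #{v | ∀ b ∈ B, G.Adj v b} ≤ lam) {Z : Set U} (hZ : lam < #Z) :
    ∃ A ⊆ Z, #A = succ θ ∧ ∃ g : A → Set A, (∀ u, #(g u) < θ) ∧
      ∀ u v, u ∉ g v → v ∉ g u → u ≠ v ∧ ¬ G.Adj u v := by
  have h1 : ℵ₀ ≤ lam := h0.trans hl.le
  have : Nonempty U := (exists_not_mem (t := ∅) (by simpa using pos_of_gt hZ)).elim fun x _ => ⟨x⟩
  have h2 : ∀ W : Set U, ∃ x, #W ≤ θ → x ∈ Z ∧ x ∉ W ∪ Bad G θ W := fun W => by
    by_cases h : #W ≤ θ
    · obtain ⟨x, hx⟩ := exists_not_mem (((mk_union_le _ _).trans (add_le_of_le h1 (h.trans hl.le)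
        (card_bad h1 hp hK (h.trans hl.le)))).trans_lt hZ)
      exact ⟨x, fun _ => hx⟩
    · exact ⟨Classical.arbitrary U, fun h' => absurd h' h⟩
  choose c hc using h2
  let f : (succ θ).ord.ToType → U := WellFoundedLT.fix fun i ih => c (range fun j : Iio i => ih j j.2)
  have hf : ∀ i, f i ∈ Z ∧ f i ∉ f '' Iio i ∪ Bad G θ (f '' Iio i) := fun i => by
    have h3 : f i = c (f '' Iio i) := by
      rw [image_eq_range]; exact WellFoundedLT.fix_eq _ i
    rw [h3]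
    exact hc _ (mk_image_le.trans (lt_succ_iff.1 (mk_Iio_toType_ord_lt i)))
  have hi : Function.Injective f := fun i j e => by
    rcases lt_trichotomy i j with h | h | h
    · exact absurd (Or.inl ⟨i, h, e⟩) (hf j).2
    · exact h
    · exact absurd (Or.inl ⟨j, h, e.symm⟩) (hf i).2
  refine ⟨range f, range_subset_iff.2 fun i => (hf i).1, by simp [mk_range_eq _ hi],
    fun u => {u} ∪ {x | ∃ i j, i < j ∧ f i = x ∧ f j = u ∧ G.Adj x u}, ?_, ?_⟩
  · rintro ⟨_, j, rfl⟩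
    refine (mk_union_le _ _).trans_lt (add_lt_of_lt h0 (by simpa using one_lt_aleph0.trans_le h0) ?_)
    refine lt_of_le_of_lt ?_ (not_le.1 fun h => (hf j).2 (Or.inr h))
    refine le_trans (mk_le_mk_of_subset ?_)
      (mk_preimage_of_injective Subtype.val _ Subtype.val_injective)
    rintro x ⟨i, j', h, e1, e2, h'⟩
    exact ⟨⟨i, hi e2 ▸ h, e1⟩, h'⟩
  · rintro ⟨_, i, rfl⟩ ⟨_, j, rfl⟩ h2 h3
    refine ⟨fun e => h2 (Or.inl e), fun e => ?_⟩
    rcases lt_trichotomy i j with h | h | h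
    · exact h2 (Or.inr ⟨i, j, h, rfl, rfl, e⟩)
    · exact e.ne (congrArg f h)
    · exact h3 (Or.inr ⟨j, i, h, rfl, rfl, e.symm⟩)

theorem big_common {X : Set U} {v : U} (hv : v ∉ X)
    (hX : ∀ l : List U, (∀ x ∈ l, x ∈ X) →
      {y | #{y | ∀ x ∈ l, G.Adj x y} ≤ lam ∧ ∀ x ∈ l, G.Adj x y} ⊆ X)
    {A : Set U} (hA : A ⊆ {u | u ∈ X ∧ G.Adj u v}) (s : Set A) (hs : s.Finite) :
    lam < #{y | ∀ x ∈ s, G.Adj x.1 y} := by
  by_contra h2
  have h3 : ∀ x, x ∈ hs.toFinset.toList.map Subtype.val ↔ ∃ y ∈ s, y.1 = x := fun x => by simp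
  refine hv (hX (hs.toFinset.toList.map Subtype.val) (fun x hx => ?_) ⟨?_, fun x hx => ?_⟩)
  · obtain ⟨y, -, rfl⟩ := (h3 x).1 hx
    exact (hA y.2).1
  · refine le_trans (mk_le_mk_of_subset fun y hy => ?_) (not_lt.1 h2)
    exact fun x hx => hy _ ((h3 _).2 ⟨x, hx, rfl⟩)
  · obtain ⟨y, -, rfl⟩ := (h3 x).1 hx
    exact (hA y.2).2

theorem col_of_induced_free (h0 : ℵ₀ ≤ θ) (hl : θ < lam) (hp : lam ^ θ ≤ lam)
    {W : Type} [Finite W] {H : SimpleGraph W} (hb : H.IsBipartite)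
    (hc : ∀ n, 6 ≤ n → ¬ (SimpleGraph.cycleGraph n).IsIndContained H)
    (hH : ¬ H.IsIndContained G)
    (hK' : ¬ ∃ A B : Set U, #A = succ lam ∧ #B = θ ∧ ∀ a ∈ A, ∀ b ∈ B, G.Adj a b) :
    ∃ r : U → U → Prop, IsWellOrder U r ∧ ∀ v, #{u // r u v ∧ G.Adj u v} < lam := by
  have := Fintype.ofFinite W
  have h1 : ℵ₀ ≤ lam := h0.trans hl.le
  have hK : ∀ B : Set U, #B = θ → #{v | ∀ b ∈ B, G.Adj v b} ≤ lam := fun B hB => by
    by_contra h
    obtain ⟨A, hA, hc⟩ := le_mk_iff_exists_subset.1 (succ_le_of_lt (not_le.1 h))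
    exact hK' ⟨A, B, hc, hB, hA⟩
  have hF : ∀ l : List U, #{y | #{y | ∀ x ∈ l, G.Adj x y} ≤ lam ∧ ∀ x ∈ l, G.Adj x y} ≤ lam :=
    fun l => by
      by_cases h : #{y | ∀ x ∈ l, G.Adj x y} ≤ lam
      · exact (mk_le_mk_of_subset fun y hy => hy.2).trans h
      · simp [h]
  obtain ⟨r, hr, hr'⟩ := col_le_of_closed (R := G.Adj) (h1.trans (le_succ lam))
    (fun l => (hF l).trans (le_succ lam)) fun X hX v hv => by
      by_contra h
      obtain ⟨A, hA, hA', g, hg, hg'⟩ := exists_sparse h0 hl hp hK (succ_le_iff.1 (not_lt.1 h))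
      exact hH (induced_of_trace hb hc h0 hl hp hK (hA' ▸ lt_succ θ) (hA' ▸ succ_le_of_lt hl)
        (big_common hv hX hA) g hg hg')
  refine col_le_of_closed (F := fun l =>
    {y | #{y | ∀ x ∈ l, G.Adj x y} ≤ lam ∧ ∀ x ∈ l, G.Adj x y} ∪
      ⋃ u ∈ {u | u ∈ l}, Bad G θ {x | r x u ∧ G.Adj x u}) h1 (fun l => ?_) fun X hX v hv => ?_
  · exact (mk_union_le _ _).trans (add_le_of_le h1 (hF l) (le_biUnion h1
      ((lt_aleph0_iff_set_finite.2 l.finite_toSet).le.trans h1) fun u _ =>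
        card_bad h1 hp hK (lt_succ_iff.1 (hr' u))))
  by_contra h
  obtain ⟨A, hA, hA'⟩ := le_mk_iff_exists_subset.1 (not_lt.1 h)
  refine hH (induced_of_trace hb hc h0 hl hp hK (hA' ▸ hl) hA'.le
    (big_common hv (fun l hl => subset_union_left.trans (hX l hl)) hA)
    (fun u => {u} ∪ {x | r x u ∧ G.Adj x u}) (fun u => ?_) fun u w h2 h3 => ?_)
  · refine (mk_union_le _ _).trans_lt (add_lt_of_lt h0 (by simpa using one_lt_aleph0.trans_le h0) ?_)
    have h2 : v ∉ Bad G θ {x | r x u ∧ G.Adj x u} := fun h => hv (hX [u.1]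
      (by simpa using (hA u.2).1) (Or.inr (mem_biUnion (List.mem_singleton_self _) h)))
    refine lt_of_le_of_lt ?_ (not_le.1 h2)
    refine le_trans (mk_le_mk_of_subset fun x hx => ?_)
      (mk_preimage_of_injective Subtype.val _ Subtype.val_injective)
    exact ⟨hx, (hA x.2).2⟩
  · refine ⟨fun e => h2 (Or.inl e), fun e => ?_⟩
    rcases trichotomous_of r u.1 w.1 with h4 | h4 | h4
    · exact h2 (Or.inr ⟨h4, e⟩)
    · exact e.ne h4
    · exact h3 (Or.inr ⟨h4, e.symm⟩)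

end Pool.Agent.Lib.MP_cabec5_lc
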