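import Pool.Agent.Lib.MP_cabec5_lc.Calibre

/-!
Many vectors over a subfield on which given functionals have a sign pattern that is forced by
finitely many inequalities with parameters in the subfield.
-/

namespace Pool.Agent.Lib.MP_cabec5_lc

open Filter Matrix Cardinal Set

variable {K : Type} [Field K] [LinearOrder K] [IsStrictOrderedRing K] {ι : Type}

omit [IsStrictOrderedRing K] in
theorem abs_mem_subfield {K0 : Subfield K} {c : K} (h : c ∈ K0) : |c| ∈ K0 := by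
  rcases abs_choice c with e | e <;> rw [e]
  · exact h
  · exact neg_mem h

theorem exists_classes (K0 : Subfield K) {M : Type} [Fintype M] (y : M → K) :
    ∃ S : Finset K, ∀ c : M → K, (∀ i, c i ∈ K0) → ∃ w ∈ S, ∃ s ∈ K0, 0 < s ∧ ∃ n : ℕ,
      |w| ≤ s * |c ⬝ᵥ y| ∧ s * |c ⬝ᵥ y| ≤ n * |w| := by
  classical
  by_contra h
  let R : K → K → Prop := fun w u => ∃ s ∈ K0, 0 < s ∧ ∃ n : ℕ, |w| ≤ s * |u| ∧ s * |u| ≤ n * |w|
  have h' : ∀ S : Finset K, ∃ c : M → K, (∀ i, c i ∈ K0) ∧ ∀ w ∈ S, ¬ R w (c ⬝ᵥ y) := fun S => by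
    by_contra h1
    refine h ⟨S, fun c hc => ?_⟩
    by_contra h2
    exact h1 ⟨c, hc, fun w hw h3 => h2 ⟨w, hw, h3⟩⟩
  obtain ⟨f, hf, hr⟩ := exists_seq_of_forall_finset_exists
    (fun c : M → K => (∀ i, c i ∈ K0) ∧ c ⬝ᵥ y ≠ 0) (fun c c' => ¬ R (c ⬝ᵥ y) (c' ⬝ᵥ y))
    (fun s _ => by
      obtain ⟨c, hc, h1⟩ := h' (insert 0 (s.image (· ⬝ᵥ y)))
      refine ⟨c, ⟨hc, fun h2 => h1 0 (by simp) ⟨1, one_mem _, one_pos, 0, by simp [h2]⟩⟩,
        fun x hx => h1 _ (Finset.mem_insert_of_mem (Finset.mem_image_of_mem _ hx))⟩)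
  let N := Fintype.card M + 1
  let v : Fin N → M → K0 := fun k i => ⟨f k i, (hf k).1 i⟩
  have hv : ¬ LinearIndependent K0 v := fun h => by
    have := h.fintype_card_le_finrank
    simp [N] at this
  obtain ⟨r, hr0, k, hk⟩ := Fintype.not_linearIndependent_iff.1 hv
  let t : Fin N → K := fun k => r k * (f k ⬝ᵥ y)
  have hsum : ∑ k, t k = 0 := by
    have e : ∀ i, ∑ k : Fin N, (r k : K) * f k i = 0 := fun i => by
      have := congrArg Subtype.val (congrFun hr0 i)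
      simpa [v, Finset.sum_apply] using this
    simp only [t, dotProduct, Finset.mul_sum]
    rw [Finset.sum_comm]
    refine Finset.sum_eq_zero fun i _ => ?_
    simp only [← mul_assoc, ← Finset.sum_mul, e i, zero_mul]
  obtain ⟨i0, -, hi0⟩ := Finset.exists_max_image Finset.univ (fun k => |t k|) ⟨k, by simp⟩
  have hpos : 0 < |t i0| :=
    (abs_pos.2 (mul_ne_zero (by simpa using hk) (hf k).2)).trans_le (hi0 k (by simp))
  have he : t i0 = - ∑ k ∈ Finset.univ.erase i0, t k := by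
    rw [eq_neg_iff_add_eq_zero, Finset.add_sum_erase _ _ (Finset.mem_univ _), hsum]
  have hne : (Finset.univ.erase i0).Nonempty := by
    by_contra h1
    rw [Finset.not_nonempty_iff_eq_empty.1 h1] at he
    simp [he] at hpos
  obtain ⟨i1, hi1, h1⟩ := Finset.exists_max_image _ (fun k => |t k|) hne
  have hle : |t i0| ≤ N * |t i1| := by
    rw [he, abs_neg]
    refine (Finset.abs_sum_le_sum_abs _ _).trans ((Finset.sum_le_card_nsmul _ _ _ h1).trans ?_)
    rw [nsmul_eq_mul]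
    refine mul_le_mul_of_nonneg_right ?_ (abs_nonneg _)
    exact_mod_cast (Finset.card_le_univ _).trans (by simp)
  have hge : |t i1| ≤ |t i0| := hi0 i1 (by simp)
  have h2 : 0 < |t i1| := by
    by_contra h3
    have := mul_nonpos_of_nonneg_of_nonpos (Nat.cast_nonneg (α := K) N) (not_lt.1 h3)
    linarith
  simp only [t, abs_mul] at hle hge hpos h2
  have p0 : 0 < |(r i0 : K)| := abs_pos.2 fun h => by simp [h] at hpos
  have p1 : 0 < |(r i1 : K)| := abs_pos.2 fun h => by simp [h] at h2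
  have m0 := abs_mem_subfield (r i0).2
  have m1 := abs_mem_subfield (r i1).2
  have hN : (0 : K) < N := by exact_mod_cast Nat.succ_pos _
  rcases lt_or_gt_of_ne (Finset.ne_of_mem_erase hi1) with h3 | h3
  · refine hr i1 i0 h3 ⟨|(r i0 : K)| / |(r i1 : K)|, div_mem m0 m1, div_pos p0 p1, N, ?_, ?_⟩
    · rw [div_mul_eq_mul_div, le_div_iff₀ p1]; linarith
    · rw [div_mul_eq_mul_div, div_le_iff₀ p1]; linarith
  · refine hr i0 i1 h3 ⟨N * |(r i1 : K)| / |(r i0 : K)|,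
      div_mem (mul_mem (natCast_mem _ _) m1) m0, div_pos (mul_pos hN p1) p0, N, ?_, ?_⟩
    · rw [div_mul_eq_mul_div, le_div_iff₀ p0]; linarith
    · rw [div_mul_eq_mul_div, div_le_iff₀ p0]
      have := mul_le_mul_of_nonneg_left hge hN.le
      linarith

theorem exists_round (m : ℕ) : ∀ x : K, |x| ≤ m → ∃ z ∈ Icc (-(m : ℤ)) m, |x - z| ≤ 1 := by
  induction m with
  | zero => intro x hx; exact ⟨0, by simp, by simpa using hx.trans (by simp)⟩
  | succ m ih =>
    intro x hx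
    push_cast at hx
    by_cases h : |x| ≤ m
    · obtain ⟨z, hz, h1⟩ := ih x h
      exact ⟨z, ⟨by have := hz.1; omega, by have := hz.2; omega⟩, h1⟩
    · rw [abs_le] at hx
      rcases lt_abs.1 (not_le.1 h) with h1 | h1
      · refine ⟨m, ⟨by omega, by omega⟩, abs_le.2 ⟨?_, ?_⟩⟩ <;> push_cast <;> linarith [hx.2]
      · refine ⟨-m, ⟨by omega, by omega⟩, abs_le.2 ⟨?_, ?_⟩⟩ <;> push_cast <;> linarith [hx.1]

theorem sign_add_small {p r : K} (h : 2 * |r| ≤ |p|) : SignType.sign (p + r) = SignType.sign p := by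
  have h1 := neg_abs_le r
  have h2 := le_abs_self r
  rcases lt_trichotomy p 0 with hp | rfl | hp
  · rw [abs_of_neg hp] at h
    rw [sign_neg hp, sign_neg (by linarith)]
  · rw [abs_zero] at h
    have : r = 0 := abs_nonpos_iff.1 (by linarith)
    rw [this, add_zero]
  · rw [abs_of_pos hp] at h
    rw [sign_pos hp, sign_pos (by linarith)]

/-- the values on the generators are small against the value on the centre -/
def Ok {J M : Type} [Fintype M] {r : ℕ} (c0 : J → M → K) (C : Fin r → J → M → K)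
    (y : J → M → K) : Prop :=
  ∀ j, 2 * ∑ t, |C t j ⬝ᵥ y j| ≤ |c0 j ⬝ᵥ y j|

theorem local_box {th : Cardinal} (h0 : ℵ₀ ≤ th) (K0 : Subfield K) {J M : Type} [Fintype J]
    [Fintype M] {A : Set ι} (hA : th < #A) (f : ι → J → M → K) (hf : ∀ x ∈ A, ∀ j i, f x j i ∈ K0)
    (y : J → M → K) : ∃ (r : ℕ) (c0 : J → M → K) (C : Fin r → J → M → K) (B : Set ι),
      B ⊆ A ∧ th ≤ #B ∧ (∀ j i, c0 j i ∈ K0) ∧ (∀ t j i, C t j i ∈ K0) ∧ Ok c0 C y ∧
      ∀ y', Ok c0 C y' → ∀ x ∈ B, ∀ j,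
        SignType.sign (f x j ⬝ᵥ y' j) = SignType.sign (c0 j ⬝ᵥ y' j) := by
  classical
  choose S hS using fun j => exists_classes K0 (y j)
  obtain ⟨⟨w, n0⟩, -, hA'⟩ := exists_big_fiber h0 hA
    (S := (pi univ fun j => (S j : Set K)) ×ˢ (univ : Set ℕ))
    ((((Finite.pi fun j => (S j).finite_toSet).countable.prod countable_univ).le_aleph0).trans h0)
    (fun x q => ∃ s : J → K, ∀ j, s j ∈ K0 ∧ 0 < s j ∧ |q.1 j| ≤ s j * |f x j ⬝ᵥ y j| ∧
      s j * |f x j ⬝ᵥ y j| ≤ q.2 * |q.1 j|) fun x hx => by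
      choose w hw s hs hs0 n h1 h2 using fun j => hS j (f x j) (hf x hx j)
      refine ⟨(w, Finset.univ.sup n), ⟨fun j _ => hw j, trivial⟩, s, fun j =>
        ⟨hs j, hs0 j, h1 j, (h2 j).trans (mul_le_mul_of_nonneg_right ?_ (abs_nonneg _))⟩⟩
      exact_mod_cast Finset.le_sup (f := n) (Finset.mem_univ j)
  have hs : ∀ x, ∃ s : J → K, x ∈ {a | a ∈ A ∧ ∃ s : J → K, ∀ j, s j ∈ K0 ∧ 0 < s j ∧
      |w j| ≤ s j * |f a j ⬝ᵥ y j| ∧ s j * |f a j ⬝ᵥ y j| ≤ n0 * |w j|} → ∀ j, s j ∈ K0 ∧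
      0 < s j ∧ |w j| ≤ s j * |f x j ⬝ᵥ y j| ∧ s j * |f x j ⬝ᵥ y j| ≤ n0 * |w j| := fun x => by
    by_cases h : ∃ s : J → K, ∀ j, s j ∈ K0 ∧ 0 < s j ∧
      |w j| ≤ s j * |f x j ⬝ᵥ y j| ∧ s j * |f x j ⬝ᵥ y j| ≤ n0 * |w j|
    · obtain ⟨s, hs⟩ := h
      exact ⟨s, fun _ => hs⟩
    · exact ⟨0, fun h' => absurd h'.2 h⟩
  choose s hs using hs
  let e := Fintype.equivFin (J × M)
  obtain ⟨T, n, B, hT, hB, hth, h⟩ := exists_box h0 _ _ hA'
    fun x k => s x (e.symm k).1 * f x (e.symm k).1 (e.symm k).2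
  choose! o ho h using h
  have h' : ∀ x ∈ B, ∀ j (y' : M → K), s x j * (f x j ⬝ᵥ y') =
      ∑ i ∈ T, o x i * (s i j * (f i j ⬝ᵥ y')) := fun x hx j y' => by
    have e1 : ∀ m, s x j * f x j m = ∑ i ∈ T, o x i * (s i j * f i j m) := fun m => by
      simpa [Finset.sum_apply] using congrFun (h x hx) (e (j, m))
    simp only [dotProduct, Finset.mul_sum, ← mul_assoc, e1, Finset.sum_mul]
    exact Finset.sum_comm
  let N : ℕ := 4 * T.card * n0 + 1
  have hN : (0 : K) < N := by exact_mod_cast Nat.succ_pos _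
  obtain ⟨z, hz⟩ := exists_big_fiber_finite h0
    (S := pi univ fun _ : T => Icc (-((N * n : ℕ) : ℤ)) (N * n : ℕ))
    (Finite.pi fun _ => finite_Icc _ _) (fun x z => ∀ i : T, |N * o x i - z i| ≤ 1) B hth
    fun x hx => by
      choose z hz h1 using fun i : T => exists_round (N * n) (N * o x i) (by
        rw [abs_mul, abs_of_pos hN]
        push_cast
        exact mul_le_mul_of_nonneg_left (ho x hx i) hN.le)
      exact ⟨z, fun i _ => hz i, h1⟩
  obtain ⟨x0, hx0, hz0⟩ :=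
    nonempty_coe_sort.1 (mk_ne_zero_iff.1 ((aleph0_pos.trans_le (h0.trans hz)).ne'))
  let τ := T.equivFin.symm
  have hτ : ∀ φ : ι → K, ∑ t, φ (τ t) = ∑ i ∈ T, φ i := fun φ =>
    (τ.sum_comp fun i : T => φ i).trans (T.sum_coe_sort φ)
  have hC : ∀ (x : ι) (j : J) (c : K) (y' : M → K),
      (fun m => c * f x j m) ⬝ᵥ y' = c * (f x j ⬝ᵥ y') := fun x j c y' => by
    simp only [dotProduct, Finset.mul_sum, mul_assoc]
  refine ⟨T.card, fun j m => s x0 j * f x0 j m, fun t j m => 2 / N * s (τ t) j * f (τ t) j m, _,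
    fun x hx => (hB hx.1).1, hz, fun j m => ?_, fun t j m => ?_, fun j => ?_,
    fun y' hy' x hx j => ?_⟩
  · exact mul_mem (hs x0 (hB hx0) j).1 (hf x0 (hB hx0).1 j m)
  · exact mul_mem (mul_mem (div_mem (ofNat_mem _ _) (natCast_mem _ _)) (hs _ (hT (τ t).2) j).1)
      (hf _ (hT (τ t).2).1 j m)
  · obtain ⟨-, h1, h2, -⟩ := hs x0 (hB hx0) j
    simp only [hC]
    rw [abs_mul, abs_of_pos h1]
    refine le_trans ?_ h2
    have h3 : ∑ t, |2 / N * s (τ t) j * (f (τ t) j ⬝ᵥ y j)| ≤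
        (Finset.univ : Finset (Fin T.card)).card • (2 / N * (n0 * |w j|)) := by
      refine Finset.sum_le_card_nsmul _ _ _ fun t _ => ?_
      obtain ⟨-, h4, -, h5⟩ := hs _ (hT (τ t).2) j
      rw [mul_assoc, abs_mul, abs_mul, abs_of_pos h4, abs_of_pos (by positivity)]
      exact mul_le_mul_of_nonneg_left h5 (by positivity)
    rw [Finset.card_fin, nsmul_eq_mul] at h3
    have h4 : 2 * (T.card * (2 / N * (n0 * |w j|))) = (4 * T.card * n0 : K) / N * |w j| := by ring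
    have h5 : (4 * T.card * n0 : K) / N ≤ 1 := by
      rw [div_le_one hN]; simp [N]
    have := mul_le_of_le_one_left (abs_nonneg (w j)) h5
    linarith
  · have h1 := hy' j
    simp only [hC] at h1 ⊢
    rw [hτ fun i => |2 / N * s i j * (f i j ⬝ᵥ y' j)|] at h1
    have h2 : s x j * (f x j ⬝ᵥ y' j) = s x0 j * (f x0 j ⬝ᵥ y' j) +
        ∑ i ∈ T, (o x i - o x0 i) * (s i j * (f i j ⬝ᵥ y' j)) := by
      rw [h' x hx.1, h' x0 hx0, ← Finset.sum_add_distrib]
      exact Finset.sum_congr rfl fun i _ => by ring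
    rw [← sign_add_small (p := s x0 j * (f x0 j ⬝ᵥ y' j)) (r := ∑ i ∈ T, (o x i - o x0 i) *
      (s i j * (f i j ⬝ᵥ y' j))), ← h2, sign_mul, sign_pos (hs x (hB hx.1) j).2.1, one_mul]
    refine le_trans (mul_le_mul_of_nonneg_left ((Finset.abs_sum_le_sum_abs _ _).trans
      (Finset.sum_le_sum fun i hi => ?_)) zero_le_two) h1
    rw [mul_assoc, abs_mul, abs_mul (2 / N : K)]
    refine mul_le_mul_of_nonneg_right ?_ (abs_nonneg _)
    rw [abs_of_pos (a := (2 / N : K)) (by positivity), le_div_iff₀ hN]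
    have h3 := abs_le.1 (hx.2 ⟨i, hi⟩)
    have h4 := abs_le.1 (hz0 ⟨i, hi⟩)
    rw [← abs_of_pos hN, ← abs_mul, abs_le]
    constructor <;> simp only at h3 h4 <;> linarith [h3.1, h3.2, h4.1, h4.2]

end Pool.Agent.Lib.MP_cabec5_lc
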