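import Pool.Agent.Lib.MP_cabec5_lc.Local
import Pool.Agent.Lib.MP_cabec5_lc.Closure

/-!
Colouring number of graphs given by sign conditions.
-/

namespace Pool.Agent.Lib.MP_cabec5_lc

open Filter Matrix Cardinal Set

variable {K : Type} [Field K] [LinearOrder K] [IsStrictOrderedRing K] {V : Type}

theorem col_of_bilinear {th lam : Cardinal} (h0 : ℵ₀ ≤ th) (hl : th < lam) (G : SimpleGraph V)
    {J M : Type} [Fintype J] [Fintype M] (f g : V → J → M → K) (P : (J → SignType) → Prop)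
    (hG : ∀ x y, x ≠ y → (G.Adj x y ↔ P fun j => SignType.sign (f x j ⬝ᵥ g y j)))
    (hK : ¬ ∃ A B : Set V, #A = Order.succ lam ∧ #B = th ∧ ∀ a ∈ A, ∀ b ∈ B, G.Adj a b) :
    ∃ r : V → V → Prop, IsWellOrder V r ∧ ∀ v, #{u // r u v ∧ G.Adj u v} < lam := by
  have h1 : ℵ₀ ≤ lam := h0.trans hl.le
  let Kl : List V → Subfield K := fun l =>
    Subfield.closure (⋃ x ∈ {x | x ∈ l}, range fun q : J × M => f x q.1 q.2)
  have hKl : ∀ l, Countable (Kl l) := fun l => mk_le_aleph0_iff.1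
    ((Subfield.cardinalMk_closure_le_max _).trans (max_le
      (l.finite_toSet.biUnion fun _ _ => finite_range _).countable.le_aleph0 le_rfl))
  have hmono : ∀ l l' : List V, (∀ x ∈ l, x ∈ l') → Kl l ≤ Kl l' := fun l l' h =>
    Subfield.closure_mono (biUnion_subset_biUnion_left h)
  let W : (r : ℕ) → (J → M → K) → (Fin r → J → M → K) → (J → SignType) → Set V :=
    fun r c0 C s => {y | Ok c0 C (g y) ∧ ∀ j, SignType.sign (c0 j ⬝ᵥ g y j) = s j}
  refine col_le_of_closed (F := fun l =>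
    ⋃ c : Σ r : ℕ, (J → M → Kl l) × (Fin r → J → M → Kl l) × (J → SignType),
      {y | y ∈ W c.1 (fun j i => c.2.1 j i) (fun t j i => c.2.2.1 t j i) c.2.2.2 ∧
        #(W c.1 (fun j i => c.2.1 j i) (fun t j i => c.2.2.1 t j i) c.2.2.2) ≤ lam}) h1
    (fun l => ?_) fun X hX v hv => ?_
  · refine (mk_iUnion_le _).trans (mul_le_of_le h1 (mk_le_aleph0.trans h1) (ciSup_le' fun c => ?_))
    by_cases h : #(W c.1 (fun j i => c.2.1 j i) (fun t j i => c.2.2.1 t j i) c.2.2.2) ≤ lam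
    · exact (mk_le_mk_of_subset fun y hy => hy.1).trans h
    · simp [h]
  by_contra hA
  let I := {l : List V // ∀ x ∈ l, x ∈ X}
  have : Nonempty I := ⟨⟨[], by simp⟩⟩
  have hd : Directed (· ≤ ·) fun l : I => Kl l := fun l l' =>
    ⟨⟨l.1 ++ l'.1, fun x hx => (List.mem_append.1 hx).elim (l.2 x) (l'.2 x)⟩,
      hmono _ _ fun x hx => List.mem_append_left _ hx,
      hmono _ _ fun x hx => List.mem_append_right _ hx⟩
  obtain ⟨r, c0, C, B, hB, hth, hc0, hC, hy, h⟩ := local_box h0 (⨆ l : I, Kl l)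
    (hl.trans_le (not_lt.1 hA)) f (fun x hx j i => (Subfield.mem_iSup_of_directed hd).2
      ⟨⟨[x], by simpa using hx.1⟩, Subfield.subset_closure
        (mem_biUnion (x := x) (by simp) ⟨(j, i), rfl⟩)⟩) (g v)
  choose l0 hl0 using fun q : J × M => (Subfield.mem_iSup_of_directed hd).1 (hc0 q.1 q.2)
  choose l1 hl1 using fun q : Fin r × J × M =>
    (Subfield.mem_iSup_of_directed hd).1 (hC q.1 q.2.1 q.2.2)
  obtain ⟨l, hl2⟩ := hd.finite_le (Sum.elim l0 l1)
  let s : J → SignType := fun j => SignType.sign (c0 j ⬝ᵥ g v j)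
  obtain ⟨B', hB', hc⟩ := le_mk_iff_exists_subset.1 hth
  obtain ⟨x0, hx0⟩ :=
    nonempty_coe_sort.1 (mk_ne_zero_iff.1 ((aleph0_pos.trans_le (h0.trans hth)).ne'))
  have hP : P s := by
    have := (hG x0 v (hB hx0).2.ne).1 (hB hx0).2
    rwa [show (fun j => SignType.sign (f x0 j ⬝ᵥ g v j)) = s from
      funext (h _ hy x0 hx0)] at this
  have hW : #(W r c0 C s) ≤ lam := by
    by_contra h2
    have h3 : Order.succ lam ≤ #(W r c0 C s \ B' : Set V) := by
      refine Order.succ_le_of_lt (not_le.1 fun h4 => h2 ?_)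
      exact (mk_le_mk_of_subset (subset_sdiff_union _ B')).trans
        ((mk_union_le _ _).trans (add_le_of_le h1 h4 (hc.le.trans hl.le)))
    obtain ⟨A', hA', hc'⟩ := le_mk_iff_exists_subset.1 h3
    refine hK ⟨A', B', hc', hc, fun a ha b hb => ((hG b a ?_).2 ?_).symm⟩
    · rintro rfl
      exact (hA' ha).2 hb
    · rwa [show (fun j => SignType.sign (f b j ⬝ᵥ g a j)) = s from
        funext fun j => (h _ (hA' ha).1.1 b (hB' hb) j).trans ((hA' ha).1.2 j)]
  exact hv (hX l.1 l.2 (mem_iUnion.2 ⟨⟨r, fun j i => ⟨c0 j i, hl2 (Sum.inl (j, i)) (hl0 (j, i))⟩,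
    fun t j i => ⟨C t j i, hl2 (Sum.inr (t, j, i)) (hl1 (t, j, i))⟩, s⟩, ⟨hy, fun _ => rfl⟩, hW⟩))

omit [LinearOrder K] [IsStrictOrderedRing K] in
theorem exists_linear {d D : ℕ} (Q : MvPolynomial (Fin d ⊕ Fin d) K) :
    ∃ g : (Fin d → K) → (Fin d → Fin (D + 1)) → K, Q.totalDegree ≤ D → ∀ x y,
      MvPolynomial.eval (Sum.elim x y) Q = (fun a => ∏ i, x i ^ (a i : ℕ)) ⬝ᵥ g y := by
  classical
  let τ : (Fin d ⊕ Fin d →₀ ℕ) → Fin d → Fin (D + 1) := fun m i =>
    ⟨min (m (Sum.inl i)) D, by omega⟩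
  refine ⟨fun y a => ∑ m ∈ Q.support with τ m = a, Q.coeff m * ∏ i, y i ^ m (Sum.inr i),
    fun hD x y => ?_⟩
  rw [MvPolynomial.eval_eq', ← Finset.sum_fiberwise Q.support τ, dotProduct]
  refine Finset.sum_congr rfl fun a _ => ?_
  rw [Finset.mul_sum]
  refine Finset.sum_congr rfl fun m hm => ?_
  obtain ⟨h1, rfl⟩ := Finset.mem_filter.1 hm
  have h2 : ∀ i, (τ m i : ℕ) = m (Sum.inl i) := fun i => min_eq_left
    ((MvPolynomial.monomial_le_degreeOf _ h1).trans
      ((MvPolynomial.degreeOf_le_totalDegree _ _).trans hD))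
  simp only [Fintype.prod_sum_type, Sum.elim_inl, Sum.elim_inr, h2]
  ring

omit [IsStrictOrderedRing K] in
theorem eventually_sign {α : Type} (U : Ultrafilter α) (a : α → K) :
    ∀ᶠ S in U, SignType.sign (a S) = SignType.sign (a : Germ (U : Filter α) K) := by
  rcases lt_trichotomy (a : Germ (U : Filter α) K) 0 with h | h | h
  · rw [sign_neg h]
    exact (Germ.coe_lt.1 h).mono fun S hS => sign_neg hS
  · rw [h, sign_zero]
    exact (Germ.coe_eq.1 h).mono fun S hS => by rw [show a S = 0 from hS, sign_zero]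
  · rw [sign_pos h]
    exact (Germ.coe_pos.1 h).mono fun S hS => sign_pos hS

theorem col_of_semialgebraic {th lam : Cardinal} (h0 : ℵ₀ ≤ th) (hl : th < lam) (d k D : ℕ)
    (G : SimpleGraph V)
    (hG : ∀ S : Finset V, ∃ (p : V → Fin d → K) (Q : Fin k → MvPolynomial (Fin d ⊕ Fin d) K)
      (P : (Fin k → SignType) → Prop), (∀ j, (Q j).totalDegree ≤ D) ∧ ∀ x ∈ S, ∀ y ∈ S, x ≠ y →
        (G.Adj x y ↔ P fun j => SignType.sign (MvPolynomial.eval (Sum.elim (p x) (p y)) (Q j))))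
    (hK : ¬ ∃ A B : Set V, #A = Order.succ lam ∧ #B = th ∧ ∀ a ∈ A, ∀ b ∈ B, G.Adj a b) :
    ∃ r : V → V → Prop, IsWellOrder V r ∧ ∀ v, #{u // r u v ∧ G.Adj u v} < lam := by
  classical
  choose p Q P hD hG using hG
  choose g hg using fun S j => exists_linear (D := D) (Q S j)
  let U : Ultrafilter (Finset V) := Ultrafilter.of atTop
  obtain ⟨P0, hP⟩ := (U.eventually_exists_iff (P := fun P0 S => P S = P0)).1
    (Eventually.of_forall fun S => ⟨_, rfl⟩)
  refine col_of_bilinear (K := Germ (U : Filter (Finset V)) K) h0 hl G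
    (fun x (_ : Fin k) (a : Fin d → Fin (D + 1)) => (↑(fun S => ∏ i, p S x i ^ (a i : ℕ)) : Germ _ K))
    (fun y j a => (↑(fun S => g S j (p S y) a) : Germ _ K)) P0 (fun x y hxy => ?_) hK
  have h1 : ∀ᶠ S : Finset V in (U : Filter (Finset V)), x ∈ S ∧ y ∈ S := Ultrafilter.of_le _
    ((eventually_ge_atTop {x, y}).mono fun S hS => ⟨hS (by simp), hS (by simp)⟩)
  obtain ⟨S, ⟨h2, h3⟩, h4⟩ := ((h1.and hP).and (eventually_all.2 fun j => eventually_sign U
    fun S => MvPolynomial.eval (Sum.elim (p S x) (p S y)) (Q S j))).exists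
  rw [hG S x h2.1 y h2.2 hxy, h3]
  refine iff_of_eq (congrArg P0 (funext fun j => (h4 j).trans (congrArg _ ?_)))
  simp only [fun S => hg S j (hD S j), dotProduct, ← Germ.coe_mul]
  have := map_sum (Germ.coeRingHom (U : Filter (Finset V)))
    (fun a : Fin d → Fin (D + 1) => (fun S => ∏ i, p S x i ^ (a i : ℕ)) * fun S => g S j (p S y) a)
    Finset.univ
  rw [Germ.coe_coeRingHom] at this
  rw [← this]
  congr 1
  funext S
  simp [Finset.sum_apply]

end Pool.Agent.Lib.MP_cabec5_lc
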