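import Mathlib

/-!
A Hahn-Banach type splitting of symmetric convex additive sets over an ordered field,
by a filter of functionals.
-/

namespace Pool.Agent.Lib.MP_cabec5_lc

open Filter Matrix

variable {K : Type} [Field K] [LinearOrder K] [IsStrictOrderedRing K]

/-- closed under sums and under scalars of absolute value at most one -/
structure SymAdd {E : Type} [AddCommGroup E] [Module K E] (L : Set E) : Prop where
  add : ∀ p ∈ L, ∀ q ∈ L, p + q ∈ L
  smul : ∀ p ∈ L, ∀ c : K, |c| ≤ 1 → c • p ∈ L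

theorem SymAdd.abs_mem {E : Type} [AddCommGroup E] [Module K E] {L : Set (E × K)}
    (hL : SymAdd (K := K) L) {c : K} (h : ((0 : E), c) ∈ L) : ((0 : E), |c|) ∈ L := by
  rcases abs_choice c with e | e <;> rw [e]
  · exact h
  · simpa using hL.smul _ h (-1) (by simp)

theorem exists_split (d : ℕ) : ∀ L : Set ((Fin d → K) × K), SymAdd (K := K) L →
    ∃ G : Filter (Fin d → K), G.NeBot ∧
      ∀ q ∈ L, ∃ u, ((0 : Fin d → K), u) ∈ L ∧ ∀ᶠ t in G, |q.2 - t ⬝ᵥ q.1| ≤ u := by
  induction d with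
  | zero =>
    intro L hL
    refine ⟨⊤, inferInstance, fun q hq => ⟨|q.2|, hL.abs_mem ?_, Eventually.of_forall fun t => ?_⟩⟩
    · rwa [show ((0 : Fin 0 → K), q.2) = q from Prod.ext (Subsingleton.elim _ _) rfl]
    · simp [dotProduct]
  | succ d ih =>
    intro L hL
    let L' : Set ((Fin d → K) × K) := {p | ((Fin.cons 0 p.1 : Fin (d + 1) → K), p.2) ∈ L}
    have hL' : SymAdd (K := K) L' := by
      constructor
      · intro p hp q hq
        have := hL.add _ hp _ hq
        have e : (Fin.cons 0 (p + q).1 : Fin (d + 1) → K) = Fin.cons 0 p.1 + Fin.cons 0 q.1 := by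
          funext i
          refine Fin.cases ?_ (fun i => ?_) i <;> simp
        show ((Fin.cons 0 (p + q).1 : Fin (d + 1) → K), (p + q).2) ∈ L
        rw [e]; exact this
      · intro p hp c hc
        have := hL.smul _ hp c hc
        have e : (Fin.cons 0 (c • p).1 : Fin (d + 1) → K) = c • Fin.cons 0 p.1 := by
          funext i
          refine Fin.cases ?_ (fun i => ?_) i <;> simp
        show ((Fin.cons 0 (c • p).1 : Fin (d + 1) → K), (c • p).2) ∈ L
        rw [e]; exact this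
    obtain ⟨G, hG, hG'⟩ := ih L' hL'
    let w : (Fin (d + 1) → K) × K → (Fin d → K) → K := fun q t => q.2 - t ⬝ᵥ Fin.tail q.1
    have h0 : ∀ q ∈ L, q.1 0 = 0 → ∃ u, ((0 : Fin (d + 1) → K), u) ∈ L ∧
        ∀ᶠ t in G, |w q t| ≤ u := fun q hq h => by
      obtain ⟨u, hu, h1⟩ := hG' (Fin.tail q.1, q.2) (by
        show ((Fin.cons 0 (Fin.tail q.1) : Fin (d + 1) → K), q.2) ∈ L
        rw [← h, Fin.cons_self_tail]; exact hq)
      refine ⟨u, ?_, h1⟩
      have hu' : ((Fin.cons 0 (0 : Fin d → K) : Fin (d + 1) → K), u) ∈ L := hu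
      convert hu' using 2
      funext i
      refine Fin.cases ?_ (fun i => ?_) i <;> simp
    have h1 : ∀ q ∈ L, ∀ q' ∈ L, q'.1 0 ≠ 0 → |q.1 0| ≤ |q'.1 0| →
        ∃ u, ((0 : Fin (d + 1) → K), u) ∈ L ∧
          ∀ᶠ t in G, |w q t - q.1 0 * (w q' t / q'.1 0)| ≤ u := fun q hq q' hq' hne hle => by
      obtain ⟨u, hu, h⟩ := h0 _ (hL.add _ hq _ (hL.smul _ hq' (-(q.1 0 / q'.1 0)) (by
        rw [abs_neg, abs_div, div_le_one (abs_pos.2 hne)]; exact hle))) (by
        simp only [Prod.fst_add, Prod.smul_fst, Pi.add_apply, Pi.smul_apply, smul_eq_mul]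
        field_simp; ring)
      refine ⟨u, hu, h.mono fun t ht => ?_⟩
      convert ht using 2
      have e : Fin.tail (q + -(q.1 0 / q'.1 0) • q').1 =
          Fin.tail q.1 + -(q.1 0 / q'.1 0) • Fin.tail q'.1 := rfl
      simp only [w, e, dotProduct_add, dotProduct_smul, Prod.snd_add, Prod.smul_snd, smul_eq_mul]
      ring
    have hc : ∀ (q : (Fin (d + 1) → K) × K) (s : K) (t : Fin d → K),
        q.2 - (Fin.cons s t : Fin (d + 1) → K) ⬝ᵥ q.1 = w q t - q.1 0 * s := fun q s t => by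
      simp only [w, dotProduct, Fin.sum_univ_succ, Fin.cons_zero, Fin.cons_succ, Fin.tail]
      ring
    by_cases hb : ∃ b : (Fin d → K) → K, ∀ q ∈ L, ∃ u, ((0 : Fin (d + 1) → K), u) ∈ L ∧
        ∀ᶠ t in G, |w q t - q.1 0 * b t| ≤ u
    · obtain ⟨b, hb⟩ := hb
      refine ⟨G.map fun t => Fin.cons (b t) t, inferInstance, fun q hq => ?_⟩
      obtain ⟨u, hu, h⟩ := hb q hq
      exact ⟨u, hu, eventually_map.2 (h.mono fun t ht => by rwa [hc])⟩
    · let J := {q : (Fin (d + 1) → K) × K // q ∈ L ∧ q.1 0 ≠ 0}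
      have hJ : Nonempty J := by
        by_contra hJ
        refine hb ⟨0, fun q hq => ?_⟩
        have : q.1 0 = 0 := by_contra fun h => hJ ⟨⟨q, hq, h⟩⟩
        simpa [this] using h0 q hq this
      let H : Filter J := ⨅ q : J, 𝓟 {q' | |q.1.1 0| ≤ |q'.1.1 0|}
      have hH : H.NeBot := by
        refine iInf_neBot_of_directed (fun q q' => ?_) fun q => principal_neBot_iff.2 ⟨q, le_rfl⟩
        rcases le_total |q.1.1 0| |q'.1.1 0| with h | h
        · exact ⟨q', principal_mono.2 fun x hx => h.trans hx, le_rfl⟩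
        · exact ⟨q, le_rfl, principal_mono.2 fun x hx => h.trans hx⟩
      refine ⟨H.bind fun q' => G.map fun t => Fin.cons (w q'.1 t / q'.1.1 0) t, ?_,
        fun q hq => ?_⟩
      · refine ⟨fun h => ?_⟩
        obtain ⟨q', h'⟩ := (eventually_bind.1 (eventually_false_iff_eq_bot.2 h)).exists
        obtain ⟨_, h''⟩ := h'.exists
        exact h''
      by_cases hq0 : q.1 0 = 0
      · obtain ⟨u, hu, h⟩ := h0 q hq hq0
        refine ⟨u, hu, eventually_bind.2 (Eventually.of_forall fun q' => eventually_map.2 ?_)⟩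
        exact h.mono fun t ht => by rwa [hc, hq0, zero_mul, sub_zero]
      have hb' := fun h => hb ⟨fun t => w q t / q.1 0, h⟩
      push Not at hb'
      obtain ⟨q1, hq1, hb1⟩ := not_forall.1 hb' |>.imp fun q1 h => Classical.not_imp.1 h
      have hlt : |q.1 0| ≤ |q1.1 0| := by
        by_contra h
        exact hb1 (h1 q1 hq1 q hq hq0 (not_le.1 h).le)
      have hq10 : q1.1 0 ≠ 0 := fun h => hq0 (by simpa [h] using hlt)
      obtain ⟨u0, hu0, h2⟩ := h1 q hq q1 hq1 hq10 hlt
      have h3 : ∀ u, ((0 : Fin (d + 1) → K), u) ∈ L → |q.1 0| * u ≤ |q1.1 0| * u0 := fun u hu => by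
        have h4 : ∃ᶠ t in G, ¬ |w q1 t - q1.1 0 * (w q t / q.1 0)| ≤ u :=
          not_eventually.1 fun h => hb1 ⟨u, hu, h⟩
        obtain ⟨t, h5, h6⟩ := (h4.and_eventually h2).exists
        calc |q.1 0| * u ≤ |q.1 0| * |w q1 t - q1.1 0 * (w q t / q.1 0)| :=
              mul_le_mul_of_nonneg_left (not_le.1 h5).le (abs_nonneg _)
          _ = |q1.1 0| * |w q t - q.1 0 * (w q1 t / q1.1 0)| := by
              rw [← abs_mul, ← abs_mul, ← abs_neg]
              congr 1
              field_simp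
              ring
          _ ≤ _ := mul_le_mul_of_nonneg_left h6 (abs_nonneg _)
      refine ⟨u0 + u0, by simpa using hL.add _ hu0 _ hu0, eventually_bind.2 ?_⟩
      have h7 : ∀ᶠ q' in H, |q1.1 0| ≤ |q'.1.1 0| :=
        mem_iInf_of_mem (⟨q1, hq1, hq10⟩ : J) (mem_principal_self _)
      refine h7.mono fun q' hq' => eventually_map.2 ?_
      obtain ⟨u, hu, h8⟩ := h1 q1 hq1 q'.1 q'.2.1 q'.2.2 hq'
      refine (h2.and h8).mono fun t ht => ?_
      rw [hc]
      have e : w q t - q.1 0 * (w q'.1 t / q'.1.1 0) = (w q t - q.1 0 * (w q1 t / q1.1 0)) +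
          q.1 0 * (w q1 t - q1.1 0 * (w q'.1 t / q'.1.1 0)) / q1.1 0 := by
        field_simp
        ring
      rw [e]
      refine (abs_add_le _ _).trans (add_le_add ht.1 ?_)
      rw [abs_div, abs_mul, div_le_iff₀ (abs_pos.2 hq10), mul_comm u0]
      exact (mul_le_mul_of_nonneg_left ht.2 (abs_nonneg _)).trans (h3 u hu)

end Pool.Agent.Lib.MP_cabec5_lc
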